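import Mathlib

/-!
# Large deviations for the sequences `μ ^ t z` modulo one, over separated sets of reals `z`
-/

set_option autoImplicit false

namespace Pool.Agent.J4H78.NW

open Finset

/-- integers in an open interval -/
theorem card_int_Ioo (S : Finset ℤ) (x y : ℝ) (hxy : x ≤ y) (h : ∀ d ∈ S, x < d ∧ (d : ℝ) < y) :
    (S.card : ℝ) ≤ y - x + 1 := by
  have h1 : S ⊆ Finset.Icc (⌊x⌋ + 1) (⌈y⌉ - 1) := by
    intro d hd
    obtain ⟨h2, h3⟩ := h d hd
    rw [Finset.mem_Icc]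
    constructor
    · have : ⌊x⌋ < d := Int.floor_lt.2 h2
      omega
    · have : d < ⌈y⌉ := Int.lt_ceil.2 h3
      omega
  have h2 := card_le_card h1
  rw [Int.card_Icc] at h2
  have h3 : ((S.card : ℤ) : ℝ) ≤ ((max (⌈y⌉ - 1 + 1 - (⌊x⌋ + 1)) 0 : ℤ) : ℝ) := by
    rw [Int.cast_le]
    have : (S.card : ℤ) ≤ ((⌈y⌉ - 1 + 1 - (⌊x⌋ + 1)).toNat : ℤ) := by exact_mod_cast h2
    rw [Int.toNat_eq_max] at this
    exact this
  have h4 : ((max (⌈y⌉ - 1 + 1 - (⌊x⌋ + 1)) 0 : ℤ) : ℝ) ≤ y - x + 1 := by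
    rcases le_total (⌈y⌉ - 1 + 1 - (⌊x⌋ + 1)) 0 with h5 | h5
    · rw [max_eq_right h5]
      push_cast
      linarith
    · rw [max_eq_left h5]
      push_cast
      have := Int.ceil_lt_add_one y
      have := Int.sub_one_lt_floor x
      linarith
  have h5 : ((S.card : ℤ) : ℝ) = (S.card : ℝ) := by norm_cast
  linarith

open Classical in
/-- consecutive intervals which meet an arc -/
theorem card_hit (B : ℕ) (u h θ : ℝ) (hh : 0 < h) (hθ : 0 ≤ θ) :
    (((range B).filter (fun d : ℕ => ∃ Y : ℝ, u + d * h ≤ Y ∧ Y < u + (d + 1) * h ∧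
      Int.fract Y < θ)).card : ℝ) ≤ (B * h + 2) * (θ / h + 2) := by
  have hB0 : (0 : ℝ) ≤ B := Nat.cast_nonneg _
  obtain ⟨Sk, hSk⟩ : ∃ Sk : ℤ → Finset ℕ, ∀ k, Sk k = (range B).filter (fun d : ℕ =>
      (k : ℝ) < u + (d + 1) * h ∧ u + d * h < k + θ) := ⟨_, fun _ => rfl⟩
  have h1 : (range B).filter (fun d : ℕ => ∃ Y : ℝ, u + d * h ≤ Y ∧ Y < u + (d + 1) * h ∧
      Int.fract Y < θ) ⊆ (Finset.Icc ⌊u⌋ ⌊u + B * h⌋).biUnion Sk := by
    intro d hd
    rw [mem_filter, mem_range] at hd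
    obtain ⟨hdB, Y, hY1, hY2, hY3⟩ := hd
    have hdB' : (d : ℝ) + 1 ≤ B := by exact_mod_cast hdB
    have hd0 : (0 : ℝ) ≤ d := Nat.cast_nonneg _
    rw [mem_biUnion]
    refine ⟨⌊Y⌋, ?_, ?_⟩
    · rw [Finset.mem_Icc]
      constructor
      · apply Int.floor_le_floor
        nlinarith
      · apply Int.floor_le_floor
        have : (d + 1) * h ≤ B * h := mul_le_mul_of_nonneg_right hdB' hh.le
        linarith
    · rw [hSk, mem_filter, mem_range]
      have h2 := Int.floor_le Y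
      have h3 := Int.self_sub_floor Y
      refine ⟨hdB, by linarith, by linarith⟩
  have h2 : ∀ k, ((Sk k).card : ℝ) ≤ θ / h + 2 := by
    intro k
    rw [hSk]
    have h3 := card_int_Ioo (((range B).filter (fun d : ℕ =>
      (k : ℝ) < u + (d + 1) * h ∧ u + d * h < k + θ)).image (fun d : ℕ => (d : ℤ)))
      ((k - u) / h - 1) ((k + θ - u) / h) (by
        have : (k + θ - u) / h = (k - u) / h + θ / h := by ring
        rw [this]
        have : 0 ≤ θ / h := by positivity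
        linarith) (by
        intro d hd
        obtain ⟨n, hn, rfl⟩ := mem_image.1 hd
        obtain ⟨-, h4, h5⟩ := mem_filter.1 hn
        have e : (((n : ℕ) : ℤ) : ℝ) = (n : ℝ) := by norm_cast
        rw [e]
        constructor
        · rw [sub_lt_iff_lt_add, div_lt_iff₀ hh]
          linarith
        · rw [lt_div_iff₀ hh]
          linarith)
    rw [card_image_of_injective _ (fun a b hab => by exact_mod_cast hab)] at h3
    have e : (k + θ - u) / h - ((k - u) / h - 1) + 1 = θ / h + 2 := by ring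
    rw [e] at h3
    exact h3
  have h3 : ((Finset.Icc ⌊u⌋ ⌊u + B * h⌋).card : ℝ) ≤ B * h + 2 := by
    rw [Int.card_Icc]
    have hfl : ⌊u⌋ ≤ ⌊u + B * h⌋ := Int.floor_le_floor (by nlinarith)
    have e : (((⌊u + B * h⌋ + 1 - ⌊u⌋).toNat : ℕ) : ℝ) = ((⌊u + B * h⌋ + 1 - ⌊u⌋ : ℤ) : ℝ) := by
      have : (((⌊u + B * h⌋ + 1 - ⌊u⌋).toNat : ℕ) : ℤ) = (⌊u + B * h⌋ + 1 - ⌊u⌋ : ℤ) :=
        Int.toNat_of_nonneg (by omega)
      exact_mod_cast this
    rw [e]
    push_cast
    have := Int.floor_le (u + B * h)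
    have := Int.sub_one_lt_floor u
    linarith
  calc _ ≤ (((Finset.Icc ⌊u⌋ ⌊u + B * h⌋).biUnion Sk).card : ℝ) := by exact_mod_cast card_le_card h1
    _ ≤ ((∑ k ∈ Finset.Icc ⌊u⌋ ⌊u + B * h⌋, (Sk k).card : ℕ) : ℝ) := by exact_mod_cast card_biUnion_le
    _ = ∑ k ∈ Finset.Icc ⌊u⌋ ⌊u + B * h⌋, ((Sk k).card : ℝ) := by push_cast; rfl
    _ ≤ ∑ k ∈ Finset.Icc ⌊u⌋ ⌊u + B * h⌋, (θ / h + 2) := sum_le_sum fun k _ => h2 k
    _ = ((Finset.Icc ⌊u⌋ ⌊u + B * h⌋).card : ℝ) * (θ / h + 2) := by rw [sum_const, nsmul_eq_mul]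
    _ ≤ _ := mul_le_mul_of_nonneg_right h3 (by positivity)

open Classical in
/-- the number of the `i < M` such that `μ ^ (s + r i) z` is in the arc `[b, b + θ)` modulo one -/
noncomputable def hits (μ : ℝ) (r : ℕ) (b θ : ℝ) (s M : ℕ) (z : ℝ) : ℕ :=
  ((range M).filter (fun i => Int.fract (μ ^ (s + r * i) * z - b) < θ)).card

open Classical in
theorem hits_succ (μ : ℝ) (r : ℕ) (b θ : ℝ) (s M : ℕ) (z : ℝ) :
    hits μ r b θ s (M + 1) z =
      (if Int.fract (μ ^ s * z - b) < θ then 1 else 0) + hits μ r b θ (s + r) M z := by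
  unfold hits
  rw [card_filter, card_filter, sum_range_succ']
  rw [add_comm]
  congr 1
  apply sum_congr rfl
  intro i _
  have e : s + r * (i + 1) = s + r + r * i := by ring
  rw [e]

open Classical in
/-- **Exponential moments.** -/
theorem moment (μ : ℝ) (hμ : 1 < μ) (ρ r : ℕ) (b θ E A : ℝ) (hθ : 0 ≤ θ) (hE : 1 ≤ E)
    (hA : (⌈μ ^ r⌉₊ : ℝ) + (E - 1) * ((⌈μ ^ r⌉₊ * (μ ^ ρ / μ ^ r) + 2) * (θ / (μ ^ ρ / μ ^ r) + 2)) ≤ A)
    {ι : Type} (z : ι → ℝ) (m : ℝ) (M : ℕ) : ∀ (s : ℕ) (a : ℝ) (S : Finset ι),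
    (∀ i ∈ S, a ≤ z i ∧ z i < a + (μ ^ s)⁻¹) →
    (∀ a' : ℝ, ((S.filter (fun i => a' ≤ z i ∧ z i < a' + (μ ^ (s + r * M))⁻¹)).card : ℝ) ≤ m) →
    ∑ i ∈ S, E ^ hits μ r b θ (s + ρ) M (z i) ≤ m * A ^ M := by
  have hμ0 : 0 < μ := by linarith
  induction M with
  | zero =>
    intro s a S hS hm
    have h1 : ∀ i ∈ S, E ^ hits μ r b θ (s + ρ) 0 (z i) = 1 := by
      intro i _
      unfold hits
      simp
    rw [sum_congr rfl h1, sum_const, nsmul_eq_mul, mul_one, pow_zero, mul_one]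
    have h2 := hm a
    rw [filter_true_of_mem] at h2
    · exact h2
    · intro i hi
      have := hS i hi
      simpa using this
  | succ M ih =>
    intro s a S hS hm
    obtain ⟨B, hB⟩ : ∃ B, B = ⌈μ ^ r⌉₊ := ⟨_, rfl⟩
    have hμr : 0 < μ ^ r := by positivity
    obtain ⟨h1, hh1⟩ : ∃ h1, h1 = (μ ^ (s + r))⁻¹ := ⟨_, rfl⟩
    have hh1p : 0 < h1 := by rw [hh1]; positivity
    have hh1e : (μ ^ s)⁻¹ = μ ^ r * h1 := by
      rw [hh1, pow_add]
      field_simp
    obtain ⟨dg, hdg⟩ : ∃ dg : ι → ℕ, ∀ i, dg i = ⌊(z i - a) / h1⌋₊ := ⟨_, fun _ => rfl⟩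
    have hdgB : ∀ i ∈ S, dg i ∈ range B := by
      intro i hi
      obtain ⟨h2, h3⟩ := hS i hi
      rw [mem_range, hdg, hB]
      have h4 : (z i - a) / h1 < μ ^ r := by
        rw [div_lt_iff₀ hh1p, ← hh1e]
        linarith
      rw [Nat.floor_lt (div_nonneg (by linarith) hh1p.le)]
      exact h4.trans_le (Nat.le_ceil _)
    have hdgz : ∀ i ∈ S, a + dg i * h1 ≤ z i ∧ z i < a + (dg i + 1) * h1 := by
      intro i hi
      obtain ⟨h2, h3⟩ := hS i hi
      have h5 : 0 ≤ (z i - a) / h1 := div_nonneg (by linarith) hh1p.le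
      have h6 := Nat.floor_le h5
      have h7 := Nat.lt_floor_add_one ((z i - a) / h1)
      rw [← hdg] at h6 h7
      rw [le_div_iff₀ hh1p] at h6
      rw [div_lt_iff₀ hh1p] at h7
      constructor <;> linarith
    obtain ⟨Hs, hHs⟩ : ∃ Hs, Hs = (range B).filter (fun d : ℕ => ∃ Y : ℝ,
      (μ ^ (s + ρ) * a - b) + d * (μ ^ ρ / μ ^ r) ≤ Y ∧
      Y < (μ ^ (s + ρ) * a - b) + (d + 1) * (μ ^ ρ / μ ^ r) ∧ Int.fract Y < θ) := ⟨_, rfl⟩
    have hHc : (Hs.card : ℝ) ≤ (B * (μ ^ ρ / μ ^ r) + 2) * (θ / (μ ^ ρ / μ ^ r) + 2) := by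
      rw [hHs]
      exact card_hit B _ _ θ (by positivity) hθ
    have hscale : μ ^ (s + ρ) * h1 = μ ^ ρ / μ ^ r := by
      rw [hh1, pow_add, pow_add]
      field_simp
    have hhit : ∀ i ∈ S, Int.fract (μ ^ (s + ρ) * z i - b) < θ → dg i ∈ Hs := by
      intro i hi hf
      rw [hHs, mem_filter]
      obtain ⟨h2, h3⟩ := hdgz i hi
      have hp : 0 < μ ^ (s + ρ) := by positivity
      refine ⟨hdgB i hi, μ ^ (s + ρ) * z i - b, ?_, ?_, hf⟩
      · have h4 := mul_le_mul_of_nonneg_left h2 hp.le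
        rw [← hscale]
        nlinarith
      · have h4 := mul_lt_mul_of_pos_left h3 hp
        rw [← hscale]
        nlinarith
    have hE0 : 0 < E := by linarith
    have hA0 : 0 ≤ A := by
      have h2 : 0 ≤ (E - 1) * ((⌈μ ^ r⌉₊ * (μ ^ ρ / μ ^ r) + 2) * (θ / (μ ^ ρ / μ ^ r) + 2)) := by
        have : 0 ≤ E - 1 := by linarith
        positivity
      have h3 : (0 : ℝ) ≤ (⌈μ ^ r⌉₊ : ℝ) := Nat.cast_nonneg _
      linarith
    have hm0 : 0 ≤ m := (Nat.cast_nonneg _).trans (hm 0)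
    rw [← sum_fiberwise_of_maps_to hdgB]
    have hfib : ∀ d ∈ range B, ∑ i ∈ S.filter (fun i => dg i = d), E ^ hits μ r b θ (s + ρ) (M + 1) (z i) ≤
        (if d ∈ Hs then E else 1) * (m * A ^ M) := by
      intro d _
      have h2 := ih (s + r) (a + d * h1) (S.filter (fun i => dg i = d)) (by
          intro i hi
          obtain ⟨hiS, hid⟩ := mem_filter.1 hi
          have h3 := hdgz i hiS
          rw [hid] at h3
          rw [← hh1]
          refine ⟨h3.1, ?_⟩
          have : a + (d + 1) * h1 = a + d * h1 + h1 := by ring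
          rw [← this]
          exact h3.2) (by
          intro a'
          refine le_trans ?_ (hm a')
          rw [Nat.cast_le]
          apply card_le_card
          intro i hi
          rw [mem_filter, mem_filter] at hi
          rw [mem_filter]
          have e : s + r * (M + 1) = s + r + r * M := by ring
          rw [e]
          exact ⟨hi.1.1, hi.2⟩)
      have h3 : ∀ i ∈ S.filter (fun i => dg i = d), E ^ hits μ r b θ (s + ρ) (M + 1) (z i) ≤
          (if d ∈ Hs then E else 1) * E ^ hits μ r b θ (s + r + ρ) M (z i) := by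
        intro i hi
        obtain ⟨hiS, hid⟩ := mem_filter.1 hi
        rw [hits_succ, pow_add]
        have e : s + ρ + r = s + r + ρ := by ring
        rw [e]
        apply mul_le_mul_of_nonneg_right _ (by positivity)
        split_ifs with h4 h5 h5
        · rw [pow_one]
        · exact absurd (hid ▸ hhit i hiS h4) h5
        · rw [pow_zero]; exact hE
        · rw [pow_zero]
      calc _ ≤ ∑ i ∈ S.filter (fun i => dg i = d),
            (if d ∈ Hs then E else 1) * E ^ hits μ r b θ (s + r + ρ) M (z i) := sum_le_sum h3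
        _ = (if d ∈ Hs then E else 1) * ∑ i ∈ S.filter (fun i => dg i = d),
            E ^ hits μ r b θ (s + r + ρ) M (z i) := by rw [mul_sum]
        _ ≤ _ := by
            apply mul_le_mul_of_nonneg_left h2
            split_ifs <;> linarith
    refine (sum_le_sum hfib).trans ?_
    rw [← sum_mul]
    have hsum : ∑ d ∈ range B, (if d ∈ Hs then E else (1 : ℝ)) = B + (E - 1) * Hs.card := by
      have h2 : ∀ d ∈ range B, (if d ∈ Hs then E else (1 : ℝ)) = 1 + (if d ∈ Hs then (E - 1) else 0) := by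
        intro d _
        split_ifs <;> ring
      rw [sum_congr rfl h2, sum_add_distrib, sum_const, card_range, nsmul_eq_mul, mul_one,
        ← sum_filter, sum_const, nsmul_eq_mul]
      have h3 : (range B).filter (fun d => d ∈ Hs) = Hs := by
        rw [filter_mem_eq_inter, inter_eq_right, hHs]
        exact filter_subset _ _
      rw [h3]
      ring
    rw [hsum]
    have h4 : (B : ℝ) + (E - 1) * Hs.card ≤ A := by
      refine le_trans ?_ hA
      rw [hB] at hHc ⊢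
      have : (E - 1) * (Hs.card : ℝ) ≤ (E - 1) *
          ((⌈μ ^ r⌉₊ * (μ ^ ρ / μ ^ r) + 2) * (θ / (μ ^ ρ / μ ^ r) + 2)) :=
        mul_le_mul_of_nonneg_left hHc (by linarith)
      linarith
    calc _ ≤ A * (m * A ^ M) := mul_le_mul_of_nonneg_right h4 (by positivity)
      _ = m * A ^ (M + 1) := by rw [pow_succ]; ring

end Pool.Agent.J4H78.NW
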