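import Mathlib
import Pool.Agent.J4H78.NW.RealDev

/-!
# Large deviations for the sequences `μ ^ t z` modulo one: consequences
-/

set_option autoImplicit false

namespace Pool.Agent.J4H78.NW

open Finset

open Classical in
/-- **Chernoff bound along an arithmetic progression of exponents.** -/
theorem devA (μ : ℝ) (hμ : 1 < μ) (ε : ℝ) (hε : 0 < ε) (hε1 : ε ≤ 1) : ∃ ρ r : ℕ, 1 ≤ r ∧ ∃ c : ℝ, 0 < c ∧
    ∀ (b θ : ℝ), 0 ≤ θ → θ ≤ 1 → ∀ {ι : Type} (z : ι → ℝ) (m : ℝ) (M s : ℕ) (a : ℝ) (S : Finset ι),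
    (∀ i ∈ S, a ≤ z i ∧ z i < a + (μ ^ s)⁻¹) →
    (∀ a' : ℝ, ((S.filter (fun i => a' ≤ z i ∧ z i < a' + (μ ^ (s + r * M))⁻¹)).card : ℝ) ≤ m) →
    ((S.filter (fun i => (θ + ε) * M ≤ hits μ r b θ (s + ρ) M (z i))).card : ℝ) ≤
      m * (μ ^ (r * M) * Real.exp (-(c * M))) := by
  have hμ0 : 0 < μ := by linarith
  obtain ⟨ρ, hρ⟩ := pow_unbounded_of_one_lt (48 / ε) hμ
  obtain ⟨r₁, hr₁⟩ := pow_unbounded_of_one_lt (32 * μ ^ ρ / ε) hμ
  obtain ⟨r₂, hr₂⟩ := pow_unbounded_of_one_lt (16 / ε ^ 2) hμ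
  obtain ⟨r, hr⟩ : ∃ r, r = r₁ + r₂ + 1 := ⟨_, rfl⟩
  have hrr₁ : 32 * μ ^ ρ / ε ≤ μ ^ r := hr₁.le.trans (pow_le_pow_right₀ hμ.le (by omega))
  have hrr₂ : 16 / ε ^ 2 ≤ μ ^ r := hr₂.le.trans (pow_le_pow_right₀ hμ.le (by omega))
  have hμρ : 0 < μ ^ ρ := by positivity
  have hμr : 0 < μ ^ r := by positivity
  refine ⟨ρ, r, by omega, ε ^ 2 / 16, by positivity, ?_⟩
  intro b θ hθ hθ1 ι z m M s a S hS hm
  obtain ⟨h, hh⟩ : ∃ h, h = μ ^ ρ / μ ^ r := ⟨_, rfl⟩
  have hh0 : 0 < h := by rw [hh]; positivity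
  have hh1 : h ≤ ε / 32 := by
    rw [hh, div_le_iff₀ hμr]
    rw [div_le_iff₀ hε] at hrr₁
    linarith
  have hx : 3 / μ ^ ρ ≤ ε / 16 := by
    rw [div_le_iff₀ hμρ]
    rw [div_lt_iff₀ hε] at hρ
    linarith
  have hinv : (μ ^ r)⁻¹ ≤ ε ^ 2 / 16 := by
    rw [inv_le_comm₀ hμr (by positivity), inv_div]
    exact hrr₂
  obtain ⟨E, hE⟩ : ∃ E, E = 1 + ε / 4 := ⟨_, rfl⟩
  have hE1 : 1 ≤ E := by rw [hE]; linarith
  have hE0 : 0 < E := by linarith
  obtain ⟨A, hA⟩ : ∃ A, A = μ ^ r * (1 + ((μ ^ r)⁻¹ + (ε / 4) * (θ + ε / 4))) := ⟨_, rfl⟩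
  have hmain := moment μ hμ ρ r b θ E A hθ hE1 (by
    have h1 : (⌈μ ^ r⌉₊ : ℝ) ≤ μ ^ r + 1 := (Nat.ceil_lt_add_one hμr.le).le
    rw [← hh]
    have h2 : (⌈μ ^ r⌉₊ * h + 2) * (θ / h + 2) ≤ μ ^ r * (θ + ε / 4) := by
      have h3 : ⌈μ ^ r⌉₊ * h + 2 ≤ μ ^ ρ + 3 := by
        have h4 : ⌈μ ^ r⌉₊ * h ≤ (μ ^ r + 1) * h := mul_le_mul_of_nonneg_right h1 hh0.le
        have h5 : μ ^ r * h = μ ^ ρ := by rw [hh]; field_simp
        nlinarith
      have h6 : (⌈μ ^ r⌉₊ * h + 2) * (θ / h + 2) ≤ (μ ^ ρ + 3) * (θ / h + 2) :=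
        mul_le_mul_of_nonneg_right h3 (by positivity)
      have h7 : (μ ^ ρ + 3) * (θ / h + 2) = μ ^ r * ((1 + 3 / μ ^ ρ) * (θ + 2 * h)) := by
        rw [hh]
        field_simp
      rw [h7] at h6
      refine h6.trans (mul_le_mul_of_nonneg_left ?_ hμr.le)
      have h8 : 0 ≤ 3 / μ ^ ρ := by positivity
      calc (1 + 3 / μ ^ ρ) * (θ + 2 * h) ≤ (1 + ε / 16) * (θ + ε / 16) := by
            apply mul_le_mul (by linarith) (by linarith) (by positivity) (by positivity)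
        _ ≤ θ + ε / 4 := by nlinarith
    have h9 : (E - 1) * ((⌈μ ^ r⌉₊ * h + 2) * (θ / h + 2)) ≤ (E - 1) * (μ ^ r * (θ + ε / 4)) :=
      mul_le_mul_of_nonneg_left h2 (by linarith)
    have h10 : A = μ ^ r + 1 + (E - 1) * (μ ^ r * (θ + ε / 4)) := by
      rw [hA, hE]
      field_simp
      ring
    rw [h10]
    linarith) z m M s a S hS hm
  obtain ⟨Bd, hBd⟩ : ∃ Bd, Bd = S.filter (fun i => (θ + ε) * M ≤ hits μ r b θ (s + ρ) M (z i)) := ⟨_, rfl⟩
  rw [← hBd]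
  have hm0 : 0 ≤ m := (Nat.cast_nonneg _).trans (hm 0)
  have h1 : (Bd.card : ℝ) * Real.exp ((θ + ε) * M * Real.log E) ≤ m * A ^ M := by
    calc (Bd.card : ℝ) * Real.exp ((θ + ε) * M * Real.log E)
        = ∑ _i ∈ Bd, Real.exp ((θ + ε) * M * Real.log E) := by rw [sum_const, nsmul_eq_mul]
      _ ≤ ∑ i ∈ Bd, E ^ hits μ r b θ (s + ρ) M (z i) := by
          apply sum_le_sum
          intro i hi
          rw [hBd, mem_filter] at hi
          have h2 : E ^ hits μ r b θ (s + ρ) M (z i) =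
              Real.exp ((hits μ r b θ (s + ρ) M (z i) : ℝ) * Real.log E) := by
            rw [mul_comm, Real.exp_mul, Real.exp_log hE0, Real.rpow_natCast]
          rw [h2]
          apply Real.exp_le_exp.2
          exact mul_le_mul_of_nonneg_right hi.2 (Real.log_nonneg hE1)
      _ ≤ ∑ i ∈ S, E ^ hits μ r b θ (s + ρ) M (z i) := by
          apply sum_le_sum_of_subset_of_nonneg
          · rw [hBd]; exact filter_subset _ _
          · intro i _ _; positivity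
      _ ≤ _ := hmain
  have h2 : A ^ M ≤ μ ^ (r * M) * Real.exp (((μ ^ r)⁻¹ + (ε / 4) * (θ + ε / 4)) * M) := by
    rw [hA, mul_pow, ← pow_mul]
    apply mul_le_mul_of_nonneg_left _ (by positivity)
    have h3 : 1 + ((μ ^ r)⁻¹ + (ε / 4) * (θ + ε / 4)) ≤ Real.exp ((μ ^ r)⁻¹ + (ε / 4) * (θ + ε / 4)) := by
      have := Real.add_one_le_exp ((μ ^ r)⁻¹ + (ε / 4) * (θ + ε / 4))
      linarith
    calc _ ≤ (Real.exp ((μ ^ r)⁻¹ + (ε / 4) * (θ + ε / 4))) ^ M :=
          pow_le_pow_left₀ (by positivity) h3 M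
      _ = _ := by rw [← Real.exp_nat_mul]; ring_nf
  have hlog : ε / 4 - (ε / 4) ^ 2 / 2 ≤ Real.log E := by
    have h3 := Real.le_log_one_add_of_nonneg (x := ε / 4) (by positivity)
    rw [hE]
    refine le_trans ?_ h3
    rw [le_div_iff₀ (by positivity)]
    nlinarith [sq_nonneg (ε / 4), mul_pos hε hε, mul_pos (mul_pos hε hε) hε]
  have hexp : ((μ ^ r)⁻¹ + (ε / 4) * (θ + ε / 4)) * M + -((θ + ε) * M * Real.log E) ≤
      -(ε ^ 2 / 16 * M) := by
    have hM : (0 : ℝ) ≤ M := Nat.cast_nonneg _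
    have h3 : ((μ ^ r)⁻¹ + (ε / 4) * (θ + ε / 4)) - (θ + ε) * Real.log E ≤ -(ε ^ 2 / 16) := by
      have h4 : (θ + ε) * (ε / 4 - (ε / 4) ^ 2 / 2) ≤ (θ + ε) * Real.log E :=
        mul_le_mul_of_nonneg_left hlog (by linarith)
      have h5 : (θ + ε) * (ε / 4) ^ 2 / 2 ≤ 2 * (ε / 4) ^ 2 / 2 := by
        have : (θ + ε) * (ε / 4) ^ 2 ≤ 2 * (ε / 4) ^ 2 :=
          mul_le_mul_of_nonneg_right (by linarith) (by positivity)
        linarith
      nlinarith
    nlinarith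
  have h3 : (Bd.card : ℝ) = Bd.card * Real.exp ((θ + ε) * M * Real.log E) *
      Real.exp (-((θ + ε) * M * Real.log E)) := by
    rw [mul_assoc, ← Real.exp_add, add_neg_cancel, Real.exp_zero, mul_one]
  rw [h3]
  calc _ ≤ m * A ^ M * Real.exp (-((θ + ε) * M * Real.log E)) :=
        mul_le_mul_of_nonneg_right h1 (Real.exp_pos _).le
    _ ≤ m * (μ ^ (r * M) * Real.exp (((μ ^ r)⁻¹ + (ε / 4) * (θ + ε / 4)) * M)) *
        Real.exp (-((θ + ε) * M * Real.log E)) :=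
        mul_le_mul_of_nonneg_right (mul_le_mul_of_nonneg_left h2 hm0) (Real.exp_pos _).le
    _ = m * (μ ^ (r * M) * Real.exp (((μ ^ r)⁻¹ + (ε / 4) * (θ + ε / 4)) * M +
        -((θ + ε) * M * Real.log E))) := by rw [Real.exp_add]; ring
    _ ≤ _ := by
        apply mul_le_mul_of_nonneg_left _ hm0
        apply mul_le_mul_of_nonneg_left _ (by positivity)
        exact Real.exp_le_exp.2 hexp

open Classical in
/-- the number of the `t < T` such that `μ ^ (s + t) z` is in the arc `[b, b + θ)` modulo one -/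
noncomputable def cnt (μ : ℝ) (b θ : ℝ) (s T : ℕ) (z : ℝ) : ℕ :=
  ((range T).filter (fun t => Int.fract (μ ^ (s + t) * z - b) < θ)).card

open Classical in
theorem cnt_le_sum (μ b θ : ℝ) (s T r M : ℕ) (hr : 1 ≤ r) (hM : T ≤ r * M) (z : ℝ) :
    cnt μ b θ s T z ≤ ∑ a ∈ range r, hits μ r b θ (s + a) M z := by
  unfold cnt hits
  rw [← card_sigma]
  apply card_le_card_of_injOn (fun t => (⟨t % r, t / r⟩ : (_ : ℕ) × ℕ))
  · intro t ht
    rw [mem_coe, mem_filter, mem_range] at ht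
    rw [mem_coe, mem_sigma, mem_range, mem_filter, mem_range]
    refine ⟨Nat.mod_lt _ (by omega), ?_, ?_⟩
    · rw [Nat.div_lt_iff_lt_mul (by omega), mul_comm]
      omega
    · have e : s + t % r + r * (t / r) = s + t := by
        have := Nat.mod_add_div t r
        omega
      simp only
      rw [e]
      exact ht.2
  · intro t _ t' _ h
    simp only [Sigma.mk.injEq, heq_eq_eq] at h
    have h1 := Nat.mod_add_div t r
    have h2 := Nat.mod_add_div t' r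
    rw [h.1, h.2] at h1
    omega

open Classical in
/-- **Large deviations for the frequencies.** -/
theorem devB (μ : ℝ) (hμ : 1 < μ) (ε : ℝ) (hε : 0 < ε) (hε1 : ε ≤ 1) : ∃ (ρ : ℕ) (C c : ℝ) (T₀ : ℕ),
    0 < c ∧ 0 ≤ C ∧
    ∀ (b θ : ℝ), 0 ≤ θ → θ ≤ 1 → ∀ {ι : Type} (z : ι → ℝ) (m : ℝ) (T s : ℕ), T₀ ≤ T →
    ∀ (a : ℝ) (S : Finset ι),
    (∀ i ∈ S, a ≤ z i ∧ z i < a + (μ ^ s)⁻¹) →
    (∀ a' : ℝ, ((S.filter (fun i => a' ≤ z i ∧ z i < a' + (μ ^ (s + T))⁻¹)).card : ℝ) ≤ m) →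
    ((S.filter (fun i => (θ + ε) * T ≤ cnt μ b θ (s + ρ) T (z i))).card : ℝ) ≤
      C * (m * (μ ^ T * Real.exp (-(c * T)))) := by
  have hμ0 : 0 < μ := by linarith
  obtain ⟨ρ, r, hr, c, hc, hdev⟩ := devA μ hμ (ε / 2) (by positivity) (by linarith)
  have hrr : (0 : ℝ) < r := by exact_mod_cast hr
  refine ⟨ρ, r * ((μ ^ r + 1) * μ ^ r), c / r, ⌈4 * r / ε⌉₊, by positivity, by positivity, ?_⟩
  intro b θ hθ hθ1 ι z m T s hT a S hS hm
  have hTr : 4 * r / ε ≤ T := (Nat.le_ceil _).trans (by exact_mod_cast hT)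
  rw [div_le_iff₀ hε] at hTr
  obtain ⟨M, hM⟩ : ∃ M, M = T / r + 1 := ⟨_, rfl⟩
  have hM1 : T ≤ r * M := by
    rw [hM]
    have h1 := Nat.mod_add_div T r
    have h2 := Nat.mod_lt T (by omega : r > 0)
    rw [mul_add, mul_one]
    omega
  have hM2 : r * M ≤ T + r := by
    rw [hM, mul_add, mul_one]
    have h1 := Nat.mod_add_div T r
    omega
  have hM1r : (T : ℝ) ≤ r * M := by exact_mod_cast hM1
  have hM2r : (r : ℝ) * M ≤ T + r := by exact_mod_cast hM2
  have hm0 : 0 ≤ m := (Nat.cast_nonneg _).trans (hm 0)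
  obtain ⟨Bd, hBd⟩ : ∃ Bd : ℕ → Finset ι, ∀ a', Bd a' =
    S.filter (fun i => (θ + ε / 2) * M ≤ hits μ r b θ (s + a' + ρ) M (z i)) := ⟨_, fun _ => rfl⟩
  have hsub : S.filter (fun i => (θ + ε) * T ≤ cnt μ b θ (s + ρ) T (z i)) ⊆ (range r).biUnion Bd := by
    intro i hi
    obtain ⟨hiS, hi2⟩ := mem_filter.1 hi
    have h1 := cnt_le_sum μ b θ (s + ρ) T r M hr hM1 (z i)
    have h2 : ((cnt μ b θ (s + ρ) T (z i) : ℕ) : ℝ) ≤
        ∑ a' ∈ range r, (hits μ r b θ (s + ρ + a') M (z i) : ℝ) := by exact_mod_cast h1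
    by_contra hcon
    have h3 : ∀ a' ∈ range r, (hits μ r b θ (s + ρ + a') M (z i) : ℝ) ≤ (θ + ε / 2) * M := by
      intro a' ha'
      by_contra h4
      push Not at h4
      apply hcon
      rw [mem_biUnion]
      refine ⟨a', ha', ?_⟩
      rw [hBd, mem_filter]
      have e : s + a' + ρ = s + ρ + a' := by ring
      rw [e]
      exact ⟨hiS, h4.le⟩
    have h4 := sum_le_sum h3
    rw [sum_const, card_range, nsmul_eq_mul] at h4
    have h5 : (θ + ε) * T ≤ r * ((θ + ε / 2) * M) := hi2.trans (h2.trans h4)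
    have h6 : (r : ℝ) * ((θ + ε / 2) * M) = (θ + ε / 2) * (r * M) := by ring
    rw [h6] at h5
    have h7 : (θ + ε / 2) * (r * M) ≤ (θ + ε / 2) * (T + r) :=
      mul_le_mul_of_nonneg_left hM2r (by positivity)
    have h8 : (θ + ε / 2) * r ≤ 3 / 2 * r := mul_le_mul_of_nonneg_right (by linarith) hrr.le
    nlinarith
  have hBdc : ∀ a' ∈ range r, ((Bd a').card : ℝ) ≤
      (μ ^ r + 1) * (m * (μ ^ r * (μ ^ T * Real.exp (-(c / r * T))))) := by
    intro a' ha'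
    rw [mem_range] at ha'
    obtain ⟨B, hB⟩ : ∃ B, B = ⌈μ ^ a'⌉₊ := ⟨_, rfl⟩
    have hμa : 0 < μ ^ a' := by positivity
    have hBr : (B : ℝ) ≤ μ ^ r + 1 := by
      rw [hB]
      have h1 := (Nat.ceil_lt_add_one hμa.le).le
      have h2 : μ ^ a' ≤ μ ^ r := pow_le_pow_right₀ hμ.le ha'.le
      linarith
    obtain ⟨h1, hh1⟩ : ∃ h1, h1 = (μ ^ (s + a'))⁻¹ := ⟨_, rfl⟩
    have hh1p : 0 < h1 := by rw [hh1]; positivity
    have hh1e : (μ ^ s)⁻¹ = μ ^ a' * h1 := by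
      rw [hh1, pow_add]
      field_simp
    obtain ⟨dg, hdg⟩ : ∃ dg : ι → ℕ, ∀ i, dg i = ⌊(z i - a) / h1⌋₊ := ⟨_, fun _ => rfl⟩
    have hdgB : ∀ i ∈ Bd a', dg i ∈ range B := by
      intro i hi
      rw [hBd, mem_filter] at hi
      obtain ⟨h2, h3⟩ := hS i hi.1
      rw [mem_range, hdg, hB]
      have h4 : (z i - a) / h1 < μ ^ a' := by
        rw [div_lt_iff₀ hh1p, ← hh1e]
        linarith
      rw [Nat.floor_lt (div_nonneg (by linarith) hh1p.le)]
      exact h4.trans_le (Nat.le_ceil _)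
    have hfib : ∀ d ∈ range B, (((Bd a').filter (fun i => dg i = d)).card : ℝ) ≤
        m * (μ ^ r * (μ ^ T * Real.exp (-(c / r * T)))) := by
      intro d _
      have h2 := hdev b θ hθ hθ1 z m M (s + a') (a + d * h1) (S.filter (fun i => dg i = d)) (by
          intro i hi
          obtain ⟨hiS, hid⟩ := mem_filter.1 hi
          obtain ⟨h2, h3⟩ := hS i hiS
          have h5 : 0 ≤ (z i - a) / h1 := div_nonneg (by linarith) hh1p.le
          have h6 := Nat.floor_le h5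
          have h7 := Nat.lt_floor_add_one ((z i - a) / h1)
          rw [← hdg, hid] at h6 h7
          rw [le_div_iff₀ hh1p] at h6
          rw [div_lt_iff₀ hh1p] at h7
          rw [← hh1]
          constructor <;> linarith) (by
          intro a''
          refine le_trans ?_ (hm a'')
          rw [Nat.cast_le]
          apply card_le_card
          intro i hi
          rw [mem_filter, mem_filter] at hi
          rw [mem_filter]
          refine ⟨hi.1.1, hi.2.1, hi.2.2.trans_le ?_⟩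
          have h3 : (μ ^ (s + a' + r * M))⁻¹ ≤ (μ ^ (s + T))⁻¹ := by
            apply inv_anti₀ (by positivity)
            exact pow_le_pow_right₀ hμ.le (by omega)
          linarith)
      have h3 : ((Bd a').filter (fun i => dg i = d)) =
          ((S.filter (fun i => dg i = d)).filter
            (fun i => (θ + ε / 2) * M ≤ hits μ r b θ (s + a' + ρ) M (z i))) := by
        rw [hBd]
        ext i
        simp only [mem_filter]
        tauto
      rw [h3]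
      refine h2.trans (mul_le_mul_of_nonneg_left ?_ hm0)
      have h4 : μ ^ (r * M) ≤ μ ^ r * μ ^ T := by
        rw [← pow_add]
        exact pow_le_pow_right₀ hμ.le (by omega)
      have h5 : Real.exp (-(c * M)) ≤ Real.exp (-(c / r * T)) := by
        apply Real.exp_le_exp.2
        have : c / r * T ≤ c * M := by
          rw [div_mul_eq_mul_div, div_le_iff₀ hrr]
          nlinarith
        linarith
      calc μ ^ (r * M) * Real.exp (-(c * M)) ≤ (μ ^ r * μ ^ T) * Real.exp (-(c / r * T)) :=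
            mul_le_mul h4 h5 (Real.exp_pos _).le (by positivity)
        _ = _ := by ring
    have h2 : ((Bd a').card : ℝ) = ∑ d ∈ range B, (((Bd a').filter (fun i => dg i = d)).card : ℝ) := by
      rw [card_eq_sum_card_fiberwise hdgB]
      push_cast
      rfl
    rw [h2]
    refine (sum_le_sum hfib).trans ?_
    rw [sum_const, card_range, nsmul_eq_mul]
    exact mul_le_mul_of_nonneg_right hBr (by positivity)
  calc _ ≤ (((range r).biUnion Bd).card : ℝ) := by exact_mod_cast card_le_card hsub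
    _ ≤ ((∑ a' ∈ range r, (Bd a').card : ℕ) : ℝ) := by exact_mod_cast card_biUnion_le
    _ = ∑ a' ∈ range r, ((Bd a').card : ℝ) := by push_cast; rfl
    _ ≤ ∑ _a' ∈ range r, (μ ^ r + 1) * (m * (μ ^ r * (μ ^ T * Real.exp (-(c / r * T))))) := sum_le_sum hBdc
    _ = _ := by rw [sum_const, card_range, nsmul_eq_mul]; ring

end Pool.Agent.J4H78.NW
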