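import Mathlib
import Pool.Agent.J4H78.NW.RealDev2

/-!
# Large deviations for the sequences `μ ^ t z` modulo one: separated families, two-sided
-/

set_option autoImplicit false

namespace Pool.Agent.J4H78.NW

open Finset

theorem fract_compl (y θ : ℝ) (hθ : 0 ≤ θ) (hθ1 : θ ≤ 1) :
    Int.fract (y - θ) < 1 - θ ↔ ¬ Int.fract y < θ := by
  have h0 := Int.fract_nonneg y
  have h1 := Int.fract_lt_one y
  constructor
  · intro h hy
    have e : Int.fract (y - θ) = Int.fract y - θ + 1 := by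
      rw [Int.fract_eq_iff]
      refine ⟨by linarith, by linarith, ⌊y⌋ - 1, ?_⟩
      push_cast
      have := Int.self_sub_floor y
      linarith
    rw [e] at h
    linarith
  · intro hy
    push Not at hy
    have e : Int.fract (y - θ) = Int.fract y - θ := by
      rw [Int.fract_eq_iff]
      refine ⟨by linarith, by linarith, ⌊y⌋, ?_⟩
      have := Int.self_sub_floor y
      linarith
    rw [e]
    linarith

open Classical in
theorem cnt_compl (μ b θ : ℝ) (hθ : 0 ≤ θ) (hθ1 : θ ≤ 1) (s T : ℕ) (z : ℝ) :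
    cnt μ b θ s T z + cnt μ (b + θ) (1 - θ) s T z = T := by
  unfold cnt
  have e : (range T).filter (fun t => Int.fract (μ ^ (s + t) * z - (b + θ)) < 1 - θ) =
      (range T).filter (fun t => ¬ Int.fract (μ ^ (s + t) * z - b) < θ) := by
    apply filter_congr
    intro t _
    rw [← fract_compl _ θ hθ hθ1]
    have e1 : μ ^ (s + t) * z - (b + θ) = μ ^ (s + t) * z - b - θ := by ring
    rw [e1]
  rw [e, card_filter_add_card_filter_not, card_range]

open Classical in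
/-- **Two-sided large deviations for separated families.** -/
theorem devC (μ : ℝ) (hμ : 1 < μ) (ε : ℝ) (hε : 0 < ε) (hε1 : ε ≤ 1) : ∃ (ρ : ℕ) (C c : ℝ) (T₀ : ℕ),
    0 < c ∧ 0 ≤ C ∧
    ∀ (b θ : ℝ), 0 ≤ θ → θ ≤ 1 → ∀ {ι : Type} (z : ι → ℝ) (idx : ι → ℤ) (c₁ : ℝ), 0 < c₁ →
    ∀ (T s : ℕ), T₀ ≤ T → ∀ (S : Finset ι), Set.InjOn idx S →
    (∀ x ∈ S, ∀ y ∈ S, |z x - z y| < (μ ^ s)⁻¹) →
    (∀ x ∈ S, ∀ y ∈ S, c₁ * |((idx x - idx y : ℤ) : ℝ)| ≤ |z x - z y|) →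
    ((S.filter (fun i => ε * T ≤ |(cnt μ b θ (s + ρ) T (z i) : ℝ) - θ * T|)).card : ℝ) ≤
      C * (((μ ^ s)⁻¹ / c₁ + μ ^ T) * Real.exp (-(c * T))) := by
  have hμ0 : 0 < μ := by linarith
  obtain ⟨ρ, C, c, T₀, hc, hC, hdev⟩ := devB μ hμ ε hε hε1
  refine ⟨ρ, 4 * C, c, T₀, hc, by positivity, ?_⟩
  intro b θ hθ hθ1 ι z idx c₁ hc₁ T s hT S hinj hdiam hsep
  rcases S.eq_empty_or_nonempty with rfl | hne
  · simp only [filter_empty, card_empty, Nat.cast_zero]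
    positivity
  obtain ⟨i₀, hi₀, hmin⟩ := S.exists_min_image z hne
  have hcont : ∀ i ∈ S, z i₀ ≤ z i ∧ z i < z i₀ + (μ ^ s)⁻¹ := by
    intro i hi
    refine ⟨hmin i hi, ?_⟩
    have h1 := hdiam i hi i₀ hi₀
    have h2 := le_abs_self (z i - z i₀)
    linarith
  obtain ⟨σ, hσ⟩ : ∃ σ, σ = (μ ^ (s + T))⁻¹ := ⟨_, rfl⟩
  have hσ0 : 0 < σ := by rw [hσ]; positivity
  have hcell : ∀ a' : ℝ, ((S.filter (fun i => a' ≤ z i ∧ z i < a' + (μ ^ (s + T))⁻¹)).card : ℝ) ≤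
      σ / c₁ + 2 := by
    intro a'
    rw [← hσ]
    obtain ⟨S', hS'⟩ : ∃ S', S' = S.filter (fun i => a' ≤ z i ∧ z i < a' + σ) := ⟨_, rfl⟩
    rw [← hS']
    rcases S'.eq_empty_or_nonempty with h0 | hne'
    · rw [h0, card_empty, Nat.cast_zero]
      positivity
    obtain ⟨j₀, hj₀, hjmin⟩ := S'.exists_min_image idx hne'
    have hS'S : S' ⊆ S := by rw [hS']; exact filter_subset _ _
    have h1 := card_int_Ioo (S'.image idx) ((idx j₀ : ℝ) - 1) (idx j₀ + σ / c₁) (by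
      have : 0 ≤ σ / c₁ := by positivity
      linarith) (by
      intro d hd
      obtain ⟨j, hj, rfl⟩ := mem_image.1 hd
      have h2 : (idx j₀ : ℝ) ≤ idx j := by exact_mod_cast hjmin j hj
      have h3 := hsep j (hS'S hj) j₀ (hS'S hj₀)
      have h4 : |z j - z j₀| < σ := by
        rw [hS', mem_filter] at hj hj₀
        rw [abs_lt]
        constructor <;> linarith [hj.2.1, hj.2.2, hj₀.2.1, hj₀.2.2]
      have h5 : ((idx j - idx j₀ : ℤ) : ℝ) < σ / c₁ := by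
        rw [lt_div_iff₀ hc₁]
        have := le_abs_self ((idx j - idx j₀ : ℤ) : ℝ)
        nlinarith
      push_cast at h5
      constructor <;> linarith)
    rw [card_image_of_injOn (hinj.mono (by exact_mod_cast hS'S))] at h1
    have e : (idx j₀ : ℝ) + σ / c₁ - (idx j₀ - 1) + 1 = σ / c₁ + 2 := by ring
    rw [e] at h1
    exact h1
  have hb1 := hdev b θ hθ hθ1 z (σ / c₁ + 2) T s hT (z i₀) S hcont hcell
  have hb2 := hdev (b + θ) (1 - θ) (by linarith) (by linarith) z (σ / c₁ + 2) T s hT (z i₀) S hcont hcell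
  have hsub : S.filter (fun i => ε * T ≤ |(cnt μ b θ (s + ρ) T (z i) : ℝ) - θ * T|) ⊆
      S.filter (fun i => (θ + ε) * T ≤ cnt μ b θ (s + ρ) T (z i)) ∪
      S.filter (fun i => ((1 - θ) + ε) * T ≤ cnt μ (b + θ) (1 - θ) (s + ρ) T (z i)) := by
    intro i hi
    rw [mem_filter] at hi
    rw [mem_union, mem_filter, mem_filter]
    have h1 := cnt_compl μ b θ hθ hθ1 (s + ρ) T (z i)
    have h2 : (cnt μ b θ (s + ρ) T (z i) : ℝ) + cnt μ (b + θ) (1 - θ) (s + ρ) T (z i) = T := by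
      exact_mod_cast h1
    rcases le_abs.1 hi.2 with h3 | h3
    · left
      exact ⟨hi.1, by linarith⟩
    · right
      exact ⟨hi.1, by linarith⟩
  have h1 : ((S.filter (fun i => ε * T ≤ |(cnt μ b θ (s + ρ) T (z i) : ℝ) - θ * T|)).card : ℝ) ≤
      C * ((σ / c₁ + 2) * (μ ^ T * Real.exp (-(c * T)))) +
      C * ((σ / c₁ + 2) * (μ ^ T * Real.exp (-(c * T)))) := by
    refine le_trans ?_ (add_le_add hb1 hb2)
    exact_mod_cast (card_le_card hsub).trans (card_union_le _ _)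
  refine h1.trans ?_
  have e1 : (σ / c₁ + 2) * μ ^ T = (μ ^ s)⁻¹ / c₁ + 2 * μ ^ T := by
    rw [hσ, pow_add]
    field_simp
  have e2 : (σ / c₁ + 2) * (μ ^ T * Real.exp (-(c * T))) =
      ((μ ^ s)⁻¹ / c₁ + 2 * μ ^ T) * Real.exp (-(c * T)) := by
    rw [← e1]; ring
  rw [e2]
  have h2 : ((μ ^ s)⁻¹ / c₁ + 2 * μ ^ T) * Real.exp (-(c * T)) ≤
      2 * (((μ ^ s)⁻¹ / c₁ + μ ^ T) * Real.exp (-(c * T))) := by
    have h3 : 0 ≤ (μ ^ s)⁻¹ / c₁ := by positivity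
    have h4 : (μ ^ s)⁻¹ / c₁ + 2 * μ ^ T ≤ 2 * ((μ ^ s)⁻¹ / c₁ + μ ^ T) := by linarith
    calc _ ≤ 2 * ((μ ^ s)⁻¹ / c₁ + μ ^ T) * Real.exp (-(c * T)) :=
          mul_le_mul_of_nonneg_right h4 (Real.exp_pos _).le
      _ = _ := by ring
  have h3 := mul_le_mul_of_nonneg_left h2 hC
  linarith

end Pool.Agent.J4H78.NW
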