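import Mathlib
import Pool.Agent.J4H78.NW.RealDev3

/-!
# Large deviations for `γ μ ^ (⌈κ j⌉ - κ j)`, `j ≤ X`
-/

set_option autoImplicit false

namespace Pool.Agent.J4H78.NW

open Finset

/-- the numbers `γ μ ^ (⌈κ j⌉ - κ j)` -/
noncomputable def zz (μ κ γ : ℝ) (j : ℕ) : ℝ := γ * μ ^ (((⌈κ * j⌉ : ℤ) : ℝ) - κ * j)

theorem rpow_diff {μ : ℝ} (hμ : 1 < μ) {x y : ℝ} (hx : 0 ≤ x) (hx1 : x ≤ 1) (hy : 0 ≤ y) (hy1 : y ≤ 1) :
    Real.log μ * |x - y| ≤ |μ ^ x - μ ^ y| ∧ |μ ^ x - μ ^ y| ≤ μ * Real.log μ * |x - y| := by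
  wlog h : y ≤ x generalizing x y with H
  · have := H hy hy1 hx hx1 (le_of_not_ge h)
    rw [abs_sub_comm x y, abs_sub_comm (μ ^ x)]
    exact this
  have hμ0 : 0 < μ := by linarith
  have hl : 0 < Real.log μ := Real.log_pos hμ
  have e : μ ^ x = μ ^ y * μ ^ (x - y) := by rw [← Real.rpow_add hμ0]; congr 1; ring
  have hy' : 1 ≤ μ ^ y := Real.one_le_rpow hμ.le hy
  have hd : 0 ≤ x - y := by linarith
  have h1 : 1 + Real.log μ * (x - y) ≤ μ ^ (x - y) := by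
    rw [Real.rpow_def_of_pos hμ0]
    have := Real.add_one_le_exp (Real.log μ * (x - y))
    linarith
  have h2 : μ ^ y ≤ μ ^ x := Real.rpow_le_rpow_of_exponent_le hμ.le h
  rw [abs_of_nonneg (by linarith : 0 ≤ μ ^ x - μ ^ y), abs_of_nonneg hd]
  constructor
  · rw [e]
    nlinarith
  · -- `μ ^ y ≥ μ ^ x (1 - log μ (x - y))`
    have e' : μ ^ y = μ ^ x * μ ^ (-(x - y)) := by rw [← Real.rpow_add hμ0]; congr 1; ring
    have h3 : 1 - Real.log μ * (x - y) ≤ μ ^ (-(x - y)) := by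
      rw [Real.rpow_def_of_pos hμ0]
      have := Real.add_one_le_exp (Real.log μ * (-(x - y)))
      linarith
    have h4 : μ ^ x ≤ μ := by
      calc μ ^ x ≤ μ ^ (1 : ℝ) := Real.rpow_le_rpow_of_exponent_le hμ.le hx1
        _ = μ := Real.rpow_one μ
    have h5 : 0 < μ ^ x := by positivity
    have h6 : μ ^ x * (1 - Real.log μ * (x - y)) ≤ μ ^ y := by
      rw [e']
      exact mul_le_mul_of_nonneg_left h3 h5.le
    have h7 : μ ^ x * (Real.log μ * (x - y)) ≤ μ * (Real.log μ * (x - y)) :=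
      mul_le_mul_of_nonneg_right h4 (by positivity)
    nlinarith

open Classical in
/-- **The left side.** -/
theorem leftA (μ : ℝ) (hμ : 1 < μ) (hμ2 : Real.log μ ≤ 9 / 20) (κ : ℝ) (hκ : 0 < κ) (hirr : Irrational κ)
    (γ : ℝ) (hγ : 0 < γ) (ε : ℝ) (hε : 0 < ε) (hε1 : ε ≤ 1) : ∃ (C c : ℝ) (X₀ : ℕ), 0 < c ∧ 0 < C ∧
    ∀ X : ℕ, X₀ ≤ X → ∃ t₀ : ℕ,
    (∃ (q : ℕ) (g : ℤ), 1 ≤ q ∧ q ≤ X ∧ μ ^ t₀ ≤ C / |q * κ - g| ∧ |q * κ - g| ≤ 1) ∧
    ∀ T : ℕ, (T : ℝ) ≤ Real.log X → ∀ b θ : ℝ, 0 ≤ θ → θ ≤ 1 →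
    (((Finset.Icc 1 X).filter (fun j => ε * T ≤ |(cnt μ b θ t₀ T (zz μ κ γ j) : ℝ) - θ * T|)).card : ℝ) ≤
      C * (X * Real.exp (-(c * T))) := by
  have hμ0 : 0 < μ := by linarith
  have hl : 0 < Real.log μ := Real.log_pos hμ
  obtain ⟨ρ, C₀, c, T₀, hc, hC₀, hdev⟩ := devC μ hμ ε hε hε1
  obtain ⟨G, hG⟩ : ∃ G, G = γ * μ * Real.log μ := ⟨_, rfl⟩
  have hG0 : 0 < G := by rw [hG]; positivity
  -- the size of `X`
  have hlim : Filter.Tendsto (fun X : ℕ => (4 * G + 4) * (X : ℝ) ^ (-(1 / 20 : ℝ))) Filter.atTop (nhds 0) := by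
    have h0 : Filter.Tendsto (fun X : ℕ => (X : ℝ)) Filter.atTop Filter.atTop := tendsto_natCast_atTop_atTop
    have h1 := (tendsto_rpow_neg_atTop (y := 1 / 20) (by norm_num)).comp h0
    simpa using h1.const_mul (4 * G + 4)
  obtain ⟨X₁, hX₁⟩ := Filter.eventually_atTop.1 (hlim.eventually (ge_mem_nhds (zero_lt_one)))
  obtain ⟨C, hC⟩ : ∃ C, C = 9 * C₀ * (2 * μ ^ 2 + 1) + Real.exp (c * T₀) + μ ^ ρ / G + 1 := ⟨_, rfl⟩
  have hCa : 9 * C₀ * (2 * μ ^ 2 + 1) ≤ C := by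
    rw [hC]
    have : 0 < Real.exp (c * T₀) := Real.exp_pos _
    have : 0 < μ ^ ρ / G := by positivity
    linarith
  have hCb : Real.exp (c * T₀) ≤ C := by
    rw [hC]
    have : 0 ≤ 9 * C₀ * (2 * μ ^ 2 + 1) := by positivity
    have : 0 < μ ^ ρ / G := by positivity
    linarith
  have hCc : μ ^ ρ / G ≤ C := by
    rw [hC]
    have : 0 ≤ 9 * C₀ * (2 * μ ^ 2 + 1) := by positivity
    have : 0 < Real.exp (c * T₀) := Real.exp_pos _
    linarith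
  have hC0 : 0 < C := (Real.exp_pos _).trans_le hCb
  refine ⟨C, c, X₁ + 1, hc, hC0, fun X hX => ?_⟩
  have hX1 : 1 ≤ X := by omega
  have hXr : (1 : ℝ) ≤ X := by exact_mod_cast hX1
  have hX0 : (0 : ℝ) < X := by linarith
  have hsmall : (4 * G + 4) * (X : ℝ) ^ (-(1 / 20 : ℝ)) ≤ 1 := hX₁ X (by omega)
  have hXp : 0 < (X : ℝ) ^ (-(1 / 20 : ℝ)) := by positivity
  -- Dirichlet
  obtain ⟨Q, hQ⟩ : ∃ Q, Q = Nat.sqrt X := ⟨_, rfl⟩
  have hQ1 : 0 < Q := by rw [hQ]; exact Nat.sqrt_pos.2 hX1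
  have hQX : Q ≤ X := by rw [hQ]; exact Nat.sqrt_le_self X
  have hQs : (Q : ℝ) ≤ (X : ℝ) ^ (1 / 2 : ℝ) := by
    rw [← Real.sqrt_eq_rpow]
    apply Real.le_sqrt_of_sq_le
    have : Q ^ 2 ≤ X := by rw [hQ]; exact Nat.sqrt_le' X
    exact_mod_cast this
  have hQs2 : (X : ℝ) ^ (1 / 2 : ℝ) ≤ Q + 1 := by
    rw [← Real.sqrt_eq_rpow]
    rw [Real.sqrt_le_left (by positivity)]
    have : X < (Q + 1) ^ 2 := by rw [hQ]; exact Nat.lt_succ_sqrt' X
    have h2 : (X : ℝ) < ((Q + 1) ^ 2 : ℕ) := by exact_mod_cast this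
    push_cast at h2
    linarith
  obtain ⟨g, k, hk0, hkQ, hgk⟩ := Real.exists_int_int_abs_mul_sub_le κ hQ1
  obtain ⟨q, rfl⟩ : ∃ q : ℕ, k = q := ⟨k.toNat, by omega⟩
  have hq1 : 1 ≤ q := by exact_mod_cast hk0
  have hqQ : q ≤ Q := by exact_mod_cast hkQ
  rw [Int.cast_natCast] at hgk
  obtain ⟨ηs, hηs⟩ : ∃ ηs : ℝ, ηs = q * κ - g := ⟨_, rfl⟩
  obtain ⟨η, hη⟩ : ∃ η : ℝ, η = |ηs| := ⟨_, rfl⟩
  have hη0 : 0 < η := by
    rw [hη, abs_pos, hηs]
    intro h0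
    have h1 : Irrational ((q : ℝ) * κ) := by
      have := hirr.natCast_mul (m := q) (by omega)
      exact this
    apply h1
    exact ⟨(g : ℚ), by push_cast; linarith⟩
  have hηX : η ≤ (X : ℝ) ^ (-(1 / 2 : ℝ)) := by
    rw [hη, hηs]
    refine hgk.trans ?_
    rw [Real.rpow_neg hX0.le, one_div]
    apply inv_anti₀ (by positivity)
    exact hQs2
  -- the length of the blocks
  obtain ⟨K, hK⟩ : ∃ K, K = ⌊(X : ℝ) ^ (9 / 20 : ℝ)⌋₊ + 1 := ⟨_, rfl⟩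
  have hK1 : 1 ≤ K := by omega
  have hKa : (X : ℝ) ^ (9 / 20 : ℝ) ≤ K := by
    rw [hK]
    push_cast
    exact (Nat.lt_floor_add_one _).le
  have hKb : (K : ℝ) ≤ 2 * (X : ℝ) ^ (9 / 20 : ℝ) := by
    rw [hK]
    push_cast
    have h1 := Nat.floor_le (a := (X : ℝ) ^ (9 / 20 : ℝ)) (by positivity)
    have h2 : 1 ≤ (X : ℝ) ^ (9 / 20 : ℝ) := Real.one_le_rpow hXr (by norm_num)
    linarith
  have hKr : (1 : ℝ) ≤ K := by exact_mod_cast hK1
  have hηK : η * K ≤ 2 * (X : ℝ) ^ (-(1 / 20 : ℝ)) := by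
    calc η * K ≤ (X : ℝ) ^ (-(1 / 2 : ℝ)) * (2 * (X : ℝ) ^ (9 / 20 : ℝ)) :=
          mul_le_mul hηX hKb (by positivity) (by positivity)
      _ = 2 * ((X : ℝ) ^ (-(1 / 2 : ℝ)) * (X : ℝ) ^ (9 / 20 : ℝ)) := by ring
      _ = 2 * (X : ℝ) ^ (-(1 / 20 : ℝ)) := by
          rw [← Real.rpow_add hX0]
          norm_num
  obtain ⟨D, hD⟩ : ∃ D, D = G * (η * K) := ⟨_, rfl⟩
  have hD0 : 0 < D := by rw [hD]; positivity
  have hD1 : 2 * D ≤ 1 := by
    rw [hD]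
    have h1 : G * (η * K) ≤ G * (2 * (X : ℝ) ^ (-(1 / 20 : ℝ))) := mul_le_mul_of_nonneg_left hηK hG0.le
    have h2 : 2 * (G * (2 * (X : ℝ) ^ (-(1 / 20 : ℝ)))) ≤ (4 * G + 4) * (X : ℝ) ^ (-(1 / 20 : ℝ)) := by
      have e : (4 * G + 4) * (X : ℝ) ^ (-(1 / 20 : ℝ)) = 2 * (G * (2 * (X : ℝ) ^ (-(1 / 20 : ℝ)))) +
        4 * (X : ℝ) ^ (-(1 / 20 : ℝ)) := by ring
      rw [e]
      linarith
    linarith
  obtain ⟨s, hs1, hs2⟩ := exists_nat_pow_near (x := 1 / (2 * D)) (y := μ)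
    (by rw [le_div_iff₀ (by positivity)]; linarith) hμ
  have hμs : 0 < μ ^ s := by positivity
  have hsa : 2 * D ≤ (μ ^ s)⁻¹ := by
    rw [le_inv_comm₀ (by positivity) hμs, ← one_div]
    exact hs1
  have hsb : (μ ^ s)⁻¹ ≤ 2 * D * μ := by
    rw [inv_le_iff_one_le_mul₀ hμs]
    rw [div_lt_iff₀ (by positivity), pow_succ] at hs2
    linarith
  refine ⟨s + ρ, ⟨q, g, hq1, hqQ.trans hQX, ?_, ?_⟩, ?_⟩
  · -- the size of `t₀`
    rw [← hηs, ← hη, le_div_iff₀ hη0, pow_add]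
    have h1 : μ ^ s * (2 * D) ≤ 1 := by
      rw [le_div_iff₀ (by positivity)] at hs1
      linarith
    have h2 : G * η ≤ 2 * D := by
      rw [hD]
      have : G * η * 1 ≤ G * η * K := mul_le_mul_of_nonneg_left hKr (by positivity)
      have h3 : 0 < G * η * K := by positivity
      nlinarith
    have h3 : μ ^ s * (G * η) ≤ 1 := (mul_le_mul_of_nonneg_left h2 hμs.le).trans h1
    calc μ ^ s * μ ^ ρ * η = (μ ^ s * (G * η)) * (μ ^ ρ / G) := by field_simp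
      _ ≤ 1 * (μ ^ ρ / G) := mul_le_mul_of_nonneg_right h3 (by positivity)
      _ = μ ^ ρ / G := one_mul _
      _ ≤ C := hCc
  · rw [← hηs, ← hη]
    refine hηX.trans ?_
    rw [Real.rpow_neg hX0.le]
    apply inv_le_one_of_one_le₀
    exact Real.one_le_rpow hXr (by norm_num)
  intro T hTX b θ hθ hθ1
  rcases lt_or_ge T T₀ with hTT | hTT
  · -- small `T`
    have h1 : (((Finset.Icc 1 X).filter
        (fun j => ε * T ≤ |(cnt μ b θ (s + ρ) T (zz μ κ γ j) : ℝ) - θ * T|)).card : ℝ) ≤ X := by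
      have h2 := card_filter_le (Finset.Icc 1 X)
        (fun j => ε * T ≤ |(cnt μ b θ (s + ρ) T (zz μ κ γ j) : ℝ) - θ * T|)
      rw [Nat.card_Icc, Nat.add_sub_cancel] at h2
      exact_mod_cast h2
    refine h1.trans ?_
    have h3 : 1 ≤ C * Real.exp (-(c * T)) := by
      have h4 : Real.exp (c * T) ≤ C := by
        refine le_trans (Real.exp_le_exp.2 ?_) hCb
        have : (T : ℝ) ≤ T₀ := by exact_mod_cast hTT.le
        exact mul_le_mul_of_nonneg_left this hc.le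
      rw [Real.exp_neg]
      rw [← div_eq_mul_inv, le_div_iff₀ (Real.exp_pos _), one_mul]
      exact h4
    calc (X : ℝ) = X * 1 := (mul_one _).symm
      _ ≤ X * (C * Real.exp (-(c * T))) := mul_le_mul_of_nonneg_left h3 hX0.le
      _ = _ := by ring
  -- the fibers
  obtain ⟨key, hkey⟩ : ∃ key : ℕ → ℕ × ℕ × ℤ, ∀ j, key j = (j % q, j / q / K,
      (⌈κ * j⌉ - g * ((j / q : ℕ) : ℤ)) - ⌊κ * ((j % q : ℕ) : ℝ) + ηs * (K * ((j / q / K : ℕ) : ℝ))⌋) :=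
    ⟨_, fun _ => rfl⟩
  obtain ⟨keys, hkeys⟩ : ∃ keys : Finset (ℕ × ℕ × ℤ), keys =
      range q ×ˢ (range (X / q / K + 1) ×ˢ Finset.Icc (0 : ℤ) 2) := ⟨_, rfl⟩
  -- the basic identity
  have hbasic : ∀ j : ℕ, ((⌈κ * j⌉ : ℤ) : ℝ) - κ * j =
      ((⌈κ * j⌉ - g * ((j / q : ℕ) : ℤ) : ℤ) : ℝ) - κ * ((j % q : ℕ) : ℝ) - ηs * ((j / q : ℕ) : ℝ) := by
    intro j
    have h1 : (j : ℝ) = ((j % q : ℕ) : ℝ) + q * ((j / q : ℕ) : ℝ) := by
      have := (Nat.mod_add_div j q).symm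
      exact_mod_cast this
    have h2 : κ * (j : ℝ) = κ * ((j % q : ℕ) : ℝ) + q * κ * ((j / q : ℕ) : ℝ) := by
      conv_lhs => rw [h1]
      ring
    rw [Int.cast_sub, Int.cast_mul, Int.cast_natCast, hηs]
    linear_combination (-1 : ℝ) * h2
  have hu : ∀ j : ℕ, 0 ≤ ((⌈κ * j⌉ : ℤ) : ℝ) - κ * j ∧ ((⌈κ * j⌉ : ℤ) : ℝ) - κ * j < 1 := by
    intro j
    have h1 := Int.le_ceil (κ * j)
    have h2 := Int.ceil_lt_add_one (κ * j)
    constructor <;> linarith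
  have hηK1 : η * K ≤ 1 := by
    refine hηK.trans ?_
    have e : (4 * G + 4) * (X : ℝ) ^ (-(1 / 20 : ℝ)) = 2 * (X : ℝ) ^ (-(1 / 20 : ℝ)) +
      (4 * G + 2) * (X : ℝ) ^ (-(1 / 20 : ℝ)) := by ring
    have h1 : 0 < (4 * G + 2) * (X : ℝ) ^ (-(1 / 20 : ℝ)) := by positivity
    linarith
  have hkm : ∀ j ∈ Finset.Icc 1 X, key j ∈ keys := by
    intro j hj
    rw [mem_Icc] at hj
    rw [hkey, hkeys, mem_product, mem_product, mem_range, mem_range, mem_Icc]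
    refine ⟨Nat.mod_lt _ (by omega), ?_, ?_⟩
    · show j / q / K < X / q / K + 1
      have : j / q / K ≤ X / q / K := Nat.div_le_div_right (Nat.div_le_div_right hj.2)
      omega
    · show 0 ≤ (⌈κ * j⌉ - g * ((j / q : ℕ) : ℤ)) - ⌊κ * ((j % q : ℕ) : ℝ) + ηs * (K * ((j / q / K : ℕ) : ℝ))⌋ ∧
        (⌈κ * j⌉ - g * ((j / q : ℕ) : ℤ)) - ⌊κ * ((j % q : ℕ) : ℝ) + ηs * (K * ((j / q / K : ℕ) : ℝ))⌋ ≤ 2
      obtain ⟨f, hf⟩ : ∃ f : ℤ, f = ⌈κ * j⌉ - g * ((j / q : ℕ) : ℤ) := ⟨_, rfl⟩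
      obtain ⟨w, hw⟩ : ∃ w : ℝ, w = κ * ((j % q : ℕ) : ℝ) + ηs * (K * ((j / q / K : ℕ) : ℝ)) := ⟨_, rfl⟩
      rw [← hf, ← hw]
      have h1 := hbasic j
      rw [← hf] at h1
      obtain ⟨h2, h3⟩ := hu j
      obtain ⟨i', hi'⟩ : ∃ i' : ℕ, i' = j / q % K := ⟨_, rfl⟩
      have hi'K : i' < K := by rw [hi']; exact Nat.mod_lt _ (by omega)
      have h4 : ((j / q : ℕ) : ℝ) = i' + K * ((j / q / K : ℕ) : ℝ) := by
        have := (Nat.mod_add_div (j / q) K).symm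
        rw [← hi'] at this
        exact_mod_cast this
      have h5 : (f : ℝ) = (((⌈κ * j⌉ : ℤ) : ℝ) - κ * j) + w + ηs * i' := by
        rw [h1, hw, h4]
        ring
      have h6 : |ηs * i'| < 1 := by
        rw [abs_mul, ← hη, Nat.abs_cast]
        have h7 : (i' : ℝ) < K := by exact_mod_cast hi'K
        calc η * i' < η * K := mul_lt_mul_of_pos_left h7 hη0
          _ ≤ 1 := hηK1
      obtain ⟨h7, h8⟩ := abs_lt.1 h6
      have h9 := Int.floor_le w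
      have h10 := Int.lt_floor_add_one w
      constructor
      · have : (⌊w⌋ : ℝ) - 1 < f := by linarith
        have : ⌊w⌋ - 1 < f := by exact_mod_cast this
        omega
      · have : (f : ℝ) < ⌊w⌋ + 3 := by linarith
        have : f < ⌊w⌋ + 3 := by exact_mod_cast this
        omega
  -- the bound for a fiber
  obtain ⟨c₁, hc₁⟩ : ∃ c₁, c₁ = γ * Real.log μ * η := ⟨_, rfl⟩
  have hc₁0 : 0 < c₁ := by rw [hc₁]; positivity
  have hμT : μ ^ T ≤ K := by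
    refine le_trans ?_ hKa
    rw [Real.rpow_def_of_pos hX0]
    have e : μ ^ T = Real.exp (T * Real.log μ) := by
      rw [mul_comm, Real.exp_mul, Real.exp_log hμ0, Real.rpow_natCast]
    rw [e]
    apply Real.exp_le_exp.2
    exact mul_le_mul hTX hμ2 hl.le (Real.log_nonneg hXr)
  have hfib : ∀ kv ∈ keys, ((((Finset.Icc 1 X).filter
      (fun j => ε * T ≤ |(cnt μ b θ (s + ρ) T (zz μ κ γ j) : ℝ) - θ * T|)).filter
      (fun j => key j = kv)).card : ℝ) ≤ C₀ * ((2 * μ ^ 2 + 1) * K * Real.exp (-(c * T))) := by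
    intro kv _
    obtain ⟨S, hS⟩ : ∃ S, S = (Finset.Icc 1 X).filter (fun j => key j = kv) := ⟨_, rfl⟩
    have hpair : ∀ x ∈ S, ∀ y ∈ S, x % q = y % q ∧ x / q / K = y / q / K ∧
        (((⌈κ * x⌉ : ℤ) : ℝ) - κ * x) - (((⌈κ * y⌉ : ℤ) : ℝ) - κ * y) =
          -(ηs * ((((x / q : ℕ) : ℤ) - ((y / q : ℕ) : ℤ) : ℤ) : ℝ)) := by
      intro x hx y hy
      rw [hS, mem_filter, hkey] at hx hy
      have h1 := hx.2.trans hy.2.symm
      simp only [Prod.mk.injEq] at h1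
      obtain ⟨h2, h3, h4⟩ := h1
      rw [h2, h3] at h4
      have h5 : (⌈κ * x⌉ - g * ((x / q : ℕ) : ℤ)) = (⌈κ * y⌉ - g * ((y / q : ℕ) : ℤ)) := by omega
      refine ⟨h2, h3, ?_⟩
      rw [hbasic x, hbasic y, h5, h2, Int.cast_sub ((x / q : ℕ) : ℤ) ((y / q : ℕ) : ℤ), Int.cast_natCast,
        Int.cast_natCast]
      ring
    have h1 := hdev b θ hθ hθ1 (zz μ κ γ) (fun j => ((j / q : ℕ) : ℤ)) c₁ hc₁0 T s hTT S (by
        intro x hx y hy hxy
        obtain ⟨h2, -, -⟩ := hpair x (by exact_mod_cast hx) y (by exact_mod_cast hy)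
        have h3 : x / q = y / q := Nat.cast_injective (R := ℤ) hxy
        have h4 := Nat.mod_add_div x q
        have h5 := Nat.mod_add_div y q
        rw [h2, h3] at h4
        omega) (by
        intro x hx y hy
        obtain ⟨h2, h3, h4⟩ := hpair x hx y hy
        have h5 := (rpow_diff hμ (hu x).1 (hu x).2.le (hu y).1 (hu y).2.le).2
        have h6 : zz μ κ γ x - zz μ κ γ y = γ * (μ ^ (((⌈κ * x⌉ : ℤ) : ℝ) - κ * x) -
          μ ^ (((⌈κ * y⌉ : ℤ) : ℝ) - κ * y)) := by unfold zz; ring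
        rw [h6, abs_mul, abs_of_pos hγ]
        have h7 : |((((x / q : ℕ) : ℤ) - ((y / q : ℕ) : ℤ) : ℤ) : ℝ)| ≤ K := by
          have h8 := Nat.mod_add_div (x / q) K
          have h9 := Nat.mod_add_div (y / q) K
          have h10 := Nat.mod_lt (x / q) (by omega : K > 0)
          have h11 := Nat.mod_lt (y / q) (by omega : K > 0)
          rw [h3] at h8
          have h12 : |((x / q : ℕ) : ℤ) - ((y / q : ℕ) : ℤ)| ≤ (K : ℤ) := by
            rw [abs_le]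
            constructor <;> omega
          exact_mod_cast h12
        have h8 : |(((⌈κ * x⌉ : ℤ) : ℝ) - κ * x) - (((⌈κ * y⌉ : ℤ) : ℝ) - κ * y)| ≤ η * K := by
          rw [h4, abs_neg, abs_mul, ← hη]
          exact mul_le_mul_of_nonneg_left h7 hη0.le
        calc _ ≤ γ * (μ * Real.log μ * |(((⌈κ * x⌉ : ℤ) : ℝ) - κ * x) - (((⌈κ * y⌉ : ℤ) : ℝ) - κ * y)|) :=
              mul_le_mul_of_nonneg_left h5 hγ.le
          _ ≤ γ * (μ * Real.log μ * (η * K)) := by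
              apply mul_le_mul_of_nonneg_left _ hγ.le
              exact mul_le_mul_of_nonneg_left h8 (by positivity)
          _ = D := by rw [hD, hG]; ring
          _ < 2 * D := by linarith
          _ ≤ _ := hsa) (by
        intro x hx y hy
        obtain ⟨h2, h3, h4⟩ := hpair x hx y hy
        have h5 := (rpow_diff hμ (hu x).1 (hu x).2.le (hu y).1 (hu y).2.le).1
        have h6 : zz μ κ γ x - zz μ κ γ y = γ * (μ ^ (((⌈κ * x⌉ : ℤ) : ℝ) - κ * x) -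
          μ ^ (((⌈κ * y⌉ : ℤ) : ℝ) - κ * y)) := by unfold zz; ring
        rw [h6, abs_mul, abs_of_pos hγ]
        rw [h4, abs_neg, abs_mul, ← hη] at h5
        calc _ = γ * (Real.log μ * (η * |((((x / q : ℕ) : ℤ) - ((y / q : ℕ) : ℤ) : ℤ) : ℝ)|)) := by
              rw [hc₁]; ring
          _ ≤ _ := mul_le_mul_of_nonneg_left h5 hγ.le)
    have h2 : (((Finset.Icc 1 X).filter
      (fun j => ε * T ≤ |(cnt μ b θ (s + ρ) T (zz μ κ γ j) : ℝ) - θ * T|)).filter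
      (fun j => key j = kv)) = S.filter
      (fun j => ε * T ≤ |(cnt μ b θ (s + ρ) T (zz μ κ γ j) : ℝ) - θ * T|) := by
      rw [hS, filter_comm]
    rw [h2]
    refine h1.trans (mul_le_mul_of_nonneg_left ?_ hC₀)
    apply mul_le_mul_of_nonneg_right _ (Real.exp_pos _).le
    have h3 : (μ ^ s)⁻¹ / c₁ ≤ 2 * μ ^ 2 * K := by
      rw [div_le_iff₀ hc₁0]
      refine hsb.trans (le_of_eq ?_)
      rw [hD, hG, hc₁]
      ring
    linarith
  have hcardk : (keys.card : ℝ) ≤ 3 * (X / K + q) := by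
    rw [hkeys, card_product, card_product, card_range, card_range, Int.card_Icc]
    have h1 : (((X / q / K : ℕ) : ℝ)) * (q * K) ≤ X := by
      have h2 : X / q / K * (q * K) ≤ X := by
        calc X / q / K * (q * K) = X / q / K * K * q := by ring
          _ ≤ X / q * q := Nat.mul_le_mul_right _ (Nat.div_mul_le_self _ _)
          _ ≤ X := Nat.div_mul_le_self _ _
      exact_mod_cast h2
    have h2 : (((X / q / K : ℕ) : ℝ)) * q ≤ X / K := by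
      rw [le_div_iff₀ (by linarith)]
      linarith
    have e : ((2 : ℤ) + 1 - 0).toNat = 3 := by decide
    rw [e]
    push_cast
    have h3 : (q : ℝ) * ((((X / q / K : ℕ) : ℝ) + 1) * 3) = 3 * ((((X / q / K : ℕ) : ℝ)) * q + q) := by ring
    rw [h3]
    linarith
  rw [card_eq_sum_card_fiberwise (f := key) (t := keys) (fun j hj => hkm j (mem_filter.1 hj).1)]
  push_cast
  refine (sum_le_sum hfib).trans ?_
  rw [sum_const, nsmul_eq_mul]
  have hqK : (q : ℝ) * K ≤ 2 * X := by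
    have h1 : (q : ℝ) ≤ (X : ℝ) ^ (1 / 2 : ℝ) := by
      have : (q : ℝ) ≤ Q := by exact_mod_cast hqQ
      exact this.trans hQs
    calc (q : ℝ) * K ≤ (X : ℝ) ^ (1 / 2 : ℝ) * (2 * (X : ℝ) ^ (9 / 20 : ℝ)) :=
          mul_le_mul h1 hKb (by positivity) (by positivity)
      _ = 2 * ((X : ℝ) ^ (1 / 2 : ℝ) * (X : ℝ) ^ (9 / 20 : ℝ)) := by ring
      _ = 2 * (X : ℝ) ^ (19 / 20 : ℝ) := by
          rw [← Real.rpow_add hX0]
          norm_num
      _ ≤ 2 * (X : ℝ) ^ (1 : ℝ) := by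
          apply mul_le_mul_of_nonneg_left _ (by norm_num)
          exact Real.rpow_le_rpow_of_exponent_le hXr (by norm_num)
      _ = 2 * X := by rw [Real.rpow_one]
  calc _ ≤ (3 * (X / K + q)) * (C₀ * ((2 * μ ^ 2 + 1) * K * Real.exp (-(c * T)))) :=
        mul_le_mul_of_nonneg_right hcardk (by positivity)
    _ = 3 * C₀ * (2 * μ ^ 2 + 1) * (X + q * K) * Real.exp (-(c * T)) := by
        have hK0 : (K : ℝ) ≠ 0 := by positivity
        field_simp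
    _ ≤ 3 * C₀ * (2 * μ ^ 2 + 1) * (3 * X) * Real.exp (-(c * T)) := by
        apply mul_le_mul_of_nonneg_right _ (Real.exp_pos _).le
        apply mul_le_mul_of_nonneg_left _ (by positivity)
        linarith
    _ = (9 * C₀ * (2 * μ ^ 2 + 1)) * (X * Real.exp (-(c * T))) := by ring
    _ ≤ C * (X * Real.exp (-(c * T))) := mul_le_mul_of_nonneg_right hCa (by positivity)

end Pool.Agent.J4H78.NW
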