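import Mathlib
import Pool.Agent.H440R2.LFL2

/-!
# The slope of the left edge of the light cone is irrational, and not well approximable
-/

set_option autoImplicit false

namespace Pool.Agent.J4H78.NW

/-- the slope of the left edge of the cone -/
noncomputable def kap : ℝ := Real.log 6 / Real.log (3 / 2)

theorem log32_pos : 0 < Real.log (3 / 2 : ℝ) := Real.log_pos (by norm_num)

theorem log32_le : Real.log (3 / 2 : ℝ) ≤ 9 / 20 := by
  rw [Real.log_le_iff_le_exp (by norm_num)]
  have := Real.quadratic_le_exp_of_nonneg (x := 9 / 20) (by norm_num)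
  linarith

theorem kap_mul : kap * Real.log (3 / 2) = Real.log 6 := by
  unfold kap
  field_simp [log32_pos.ne']

theorem kap_ge : 4 ≤ kap := by
  unfold kap
  rw [le_div_iff₀ log32_pos]
  have h : Real.log ((3 / 2 : ℝ) ^ 4) ≤ Real.log 6 := Real.log_le_log (by norm_num) (by norm_num)
  rw [Real.log_pow] at h
  exact_mod_cast h

theorem kap_le : kap ≤ 5 := by
  unfold kap
  rw [div_le_iff₀ log32_pos]
  have h : Real.log 6 ≤ Real.log ((3 / 2 : ℝ) ^ 5) := Real.log_le_log (by norm_num) (by norm_num)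
  rw [Real.log_pow] at h
  exact_mod_cast h

theorem log3_eq : Real.log (3 / 2 : ℝ) = Real.log 3 - Real.log 2 := Real.log_div (by norm_num) (by norm_num)

theorem log6_eq : Real.log (6 : ℝ) = Real.log 3 + Real.log 2 := by
  rw [← Real.log_mul (by norm_num) (by norm_num)]
  norm_num

theorem logform : ∃ C : ℝ, 0 < C ∧ ∀ X : ℕ, 3 ≤ X → ∀ (q : ℕ) (g : ℤ), 1 ≤ q → q ≤ X →
    |q * kap - g| ≤ 1 → Real.exp (-(C * (Real.log X) ^ 2)) < |q * kap - g| := by
  refine ⟨20880 * 4 * 201 ^ 2, by norm_num, ?_⟩
  intro X hX q g hq hqX hqg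
  have hXr : (3 : ℝ) ≤ X := by exact_mod_cast hX
  have hX0 : (0 : ℝ) < X := by linarith
  have he1 : Real.exp 1 < 2.7182818286 := Real.exp_one_lt_d9
  have he2 : 2.7182818283 < Real.exp 1 := Real.exp_one_gt_d9
  have hlogX : 1 ≤ Real.log X := by
    rw [Real.le_log_iff_exp_le hX0]
    linarith
  have hqr : (1 : ℝ) ≤ q := by exact_mod_cast hq
  have hqXr : (q : ℝ) ≤ X := by exact_mod_cast hqX
  obtain ⟨hg1, hg2⟩ := abs_le.1 hqg
  have hk1 := kap_ge
  have hk2 := kap_le
  have h1 : 4 * (q : ℝ) ≤ q * kap := by nlinarith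
  have h2 : q * kap ≤ 5 * X := by nlinarith
  have hgl : 3 * (q : ℝ) ≤ g := by linarith
  have hgu : (g : ℝ) ≤ 6 * X := by linarith
  have hglz : 3 * (q : ℤ) ≤ g := by exact_mod_cast hgl
  obtain ⟨a, ha⟩ : ∃ a : ℕ, (a : ℤ) = g - q := ⟨(g - q).toNat, by omega⟩
  obtain ⟨b, hb⟩ : ∃ b : ℕ, (b : ℤ) = g + q := ⟨(g + q).toNat, by omega⟩
  have har : (a : ℝ) = g - q := by exact_mod_cast ha
  have hbr : (b : ℝ) = g + q := by exact_mod_cast hb
  obtain ⟨L, hL⟩ : ∃ L, L = ⌈200 * Real.log X⌉₊ := ⟨_, rfl⟩
  have hL1 : 200 * Real.log X ≤ L := by rw [hL]; exact Nat.le_ceil _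
  have hL2 : (L : ℝ) ≤ 201 * Real.log X := by
    have := (Nat.ceil_lt_add_one (a := 200 * Real.log X) (by positivity)).le
    rw [← hL] at this
    linarith
  have hL200 : (200 : ℝ) ≤ L := by linarith
  have hL0 : (0 : ℝ) < L := by linarith
  have hmain := Pool.Agent.H440R2.lfl 3 2 a b 2 L (by norm_num) (by norm_num) (by norm_num)
    (by omega) (by omega) (by norm_num) (by
      have : (1 : ℝ) ≤ L := by linarith
      exact_mod_cast this) (by
      have := Real.log_le_sub_one_of_pos (x := 3) (by norm_num)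
      push_cast
      linarith) (by
      have := Real.log_le_sub_one_of_pos (x := 2) (by norm_num)
      push_cast
      linarith) (by
      have hab : (a : ℝ) + b ≤ 12 * X := by rw [har, hbr]; linarith
      have hab0 : (0 : ℝ) < (a : ℝ) + b := by rw [har, hbr]; linarith
      have h3 : Real.log (290 * (2 : ℕ) * L * (a + b)) ≤ Real.log (6960 * (L * X)) := by
        apply Real.log_le_log
        · push_cast; positivity
        · push_cast
          nlinarith
      have h4 : Real.log (6960 * (L * X)) = Real.log 6960 + (Real.log L + Real.log X) := by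
        rw [Real.log_mul (by norm_num) (by positivity), Real.log_mul (by positivity) (by positivity)]
      have h5 : Real.log 6960 ≤ 10 := by
        rw [Real.log_le_iff_le_exp (by norm_num)]
        have e : Real.exp 10 = (Real.exp 1) ^ 10 := by rw [← Real.exp_nat_mul]; norm_num
        rw [e]
        calc (6960 : ℝ) ≤ 2.7 ^ 10 := by norm_num
          _ ≤ (Real.exp 1) ^ 10 := pow_le_pow_left₀ (by norm_num) (by linarith) 10
      have h6 : Real.log L ≤ L / 32 + 3 := by
        have h7 := Real.log_le_sub_one_of_pos (x := (L : ℝ) / 32) (by positivity)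
        rw [Real.log_div (by positivity) (by norm_num)] at h7
        have h8 : Real.log 32 ≤ 4 := by
          rw [Real.log_le_iff_le_exp (by norm_num)]
          have e : Real.exp 4 = (Real.exp 1) ^ 4 := by rw [← Real.exp_nat_mul]; norm_num
          rw [e]
          calc (32 : ℝ) ≤ 2.7 ^ 4 := by norm_num
            _ ≤ (Real.exp 1) ^ 4 := pow_le_pow_left₀ (by norm_num) (by linarith) 4
        linarith
      have h3' : Real.log (290 * (2 : ℕ) * L * (a + b)) ≤ 10 + (L / 32 + 3 + Real.log X) := by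
        refine (h3.trans_eq h4).trans ?_
        linarith
      have h9 : 8 * (1 + Real.log (290 * (2 : ℕ) * L * (a + b))) ≤ 8 * (1 + (10 + (L / 32 + 3 + Real.log X))) :=
        mul_le_mul_of_nonneg_left (add_le_add le_rfl h3') (by norm_num)
      refine h9.trans ?_
      linarith)
  have e1 : (b : ℝ) * Real.log (2 : ℕ) - a * Real.log (3 : ℕ) = (q * kap - g) * Real.log (3 / 2) := by
    have e2 : (q * kap - g) * Real.log (3 / 2) = q * (kap * Real.log (3 / 2)) - g * Real.log (3 / 2) := by ring
    rw [e2, kap_mul, log6_eq, log3_eq, har, hbr]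
    push_cast
    ring
  rw [e1, abs_mul, abs_of_pos log32_pos] at hmain
  have h10 : |q * kap - g| * Real.log (3 / 2) ≤ |q * kap - g| := by
    have := log32_le
    nlinarith [abs_nonneg (q * kap - g)]
  refine lt_of_le_of_lt ?_ (hmain.trans_le h10)
  apply Real.exp_le_exp.2
  have h11 : (L : ℝ) ^ 2 ≤ (201 * Real.log X) ^ 2 := pow_le_pow_left₀ hL0.le hL2 2
  push_cast
  nlinarith

theorem kap_irr : Irrational kap := by
  rintro ⟨r, hr⟩
  obtain ⟨C, hC, h⟩ := logform
  have hq : 1 ≤ r.den := r.den_pos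
  have e : (r.den : ℝ) * kap - r.num = 0 := by
    rw [← hr]
    have h1 : (r : ℝ) = r.num / r.den := by exact_mod_cast (Rat.num_div_den r).symm
    rw [h1]
    have h2 : (r.den : ℝ) ≠ 0 := by exact_mod_cast r.den_nz
    field_simp
    ring
  have h1 := h (r.den + 3) (by omega) r.den r.num hq (by omega) (by rw [e]; norm_num)
  rw [e, abs_zero] at h1
  exact absurd h1 (not_lt.2 (Real.exp_pos _).le)

end Pool.Agent.J4H78.NW
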