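import Mathlib

/-!
# Large deviations for the sequences `c_q + g_q u / 2 ^ q` modulo one, `g_q` odd, over families of integers `u`
-/

set_option autoImplicit false

namespace Pool.Agent.J4H78.NW

open Finset

open Classical in
/-- equally spaced points in an arc -/
theorem card_hit2 (r : ℕ) (c θ : ℝ) (g : ℤ) (hg : Odd g) (hθ : 0 ≤ θ) :
    (((range (2 ^ r)).filter (fun d : ℕ => Int.fract (c + g * d / 2 ^ r) < θ)).card : ℝ) ≤
      θ * 2 ^ r + 1 := by
  obtain ⟨N, hN⟩ : ∃ N : ℕ, N = 2 ^ r := ⟨_, rfl⟩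
  have hN0 : 0 < N := by rw [hN]; positivity
  have hNr : (0 : ℝ) < N := by exact_mod_cast hN0
  have hNz : (0 : ℤ) < N := by exact_mod_cast hN0
  have e2 : ((2 : ℝ) ^ r) = N := by rw [hN]; push_cast; rfl
  rw [e2, ← hN]
  obtain ⟨S, hS⟩ : ∃ S, S = (range N).filter (fun d : ℕ => Int.fract (c + g * d / N) < θ) := ⟨_, rfl⟩
  rw [← hS]
  obtain ⟨f, hf⟩ : ∃ f : ℕ → ℤ, ∀ d, f d = (⌊N * c⌋ + g * d) % N := ⟨_, fun _ => rfl⟩
  have hcop : IsCoprime g (N : ℤ) := by
    rw [hN]
    push_cast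
    apply IsCoprime.pow_right
    rw [Int.isCoprime_iff_gcd_eq_one]
    obtain ⟨k, hk⟩ := hg
    have : Int.gcd g 2 = 1 := by
      rw [hk]
      have h1 : Int.gcd (2 * k + 1) 2 = Int.gcd 1 2 := by
        rw [Int.gcd_comm, Int.gcd_comm 1 2]
        have : (2 * k + 1 : ℤ) = 1 + 2 * k := by ring
        rw [this, Int.gcd_add_mul_left_right]
      rw [h1]
      decide
    exact this
  have hinj : Set.InjOn f (range N : Finset ℕ) := by
    intro d hd d' hd' h
    rw [mem_coe, mem_range] at hd hd'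
    rw [hf, hf] at h
    have h1 : (⌊N * c⌋ + g * d) ≡ (⌊N * c⌋ + g * d') [ZMOD N] := h
    have h2 : g * (d : ℤ) ≡ g * d' [ZMOD N] := Int.ModEq.add_left_cancel' _ h1
    have h3 : (N : ℤ) ∣ g * ((d' : ℤ) - d) := by
      have := h2.dvd
      rwa [← mul_sub] at this
    have h4 : (N : ℤ) ∣ (d' : ℤ) - d := hcop.symm.dvd_of_dvd_mul_left h3
    have h5 : |(d' : ℤ) - d| < N := by
      rw [abs_lt]
      constructor <;> omega
    have h6 := Int.eq_zero_of_abs_lt_dvd h4 h5
    omega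
  have hmap : ∀ d ∈ S, f d ∈ Finset.Ico (0 : ℤ) ⌈θ * N⌉ := by
    intro d hd
    rw [hS, mem_filter] at hd
    rw [Finset.mem_Ico, hf]
    refine ⟨Int.emod_nonneg _ hNz.ne', ?_⟩
    rw [Int.lt_ceil]
    obtain ⟨y, hy⟩ : ∃ y : ℝ, y = N * c + g * d := ⟨_, rfl⟩
    obtain ⟨l, hl⟩ : ∃ l : ℤ, l = (⌊N * c⌋ + g * d) % N := ⟨_, rfl⟩
    have hfl : ⌊y⌋ = ⌊N * c⌋ + g * d := by
      rw [hy]
      have : (N : ℝ) * c + g * d = N * c + ((g * d : ℤ) : ℝ) := by push_cast; ring
      rw [this, Int.floor_add_intCast]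
    have hk := Int.emod_add_mul_ediv (⌊N * c⌋ + g * d) N
    rw [← hl] at hk
    rw [← hl]
    have e : c + g * d / N = y / N := by
      rw [hy]
      field_simp
    have h1 := hd.2
    rw [e] at h1
    have h2 : Int.fract (y / N) = (l + Int.fract y) / N := by
      rw [Int.fract_eq_iff]
      have h3 : 0 ≤ l := by rw [hl]; exact Int.emod_nonneg _ hNz.ne'
      have h4 : l < N := by rw [hl]; exact Int.emod_lt_of_pos _ hNz
      have h3r : (0 : ℝ) ≤ l := by exact_mod_cast h3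
      have h4r : (l : ℝ) + 1 ≤ N := by exact_mod_cast h4
      have h5 := Int.fract_nonneg y
      have h6 := Int.fract_lt_one y
      refine ⟨by positivity, by rw [div_lt_one hNr]; linarith, (⌊N * c⌋ + g * d) / N, ?_⟩
      have h7 := Int.self_sub_floor y
      have h8 : ((⌊y⌋ : ℤ) : ℝ) = l + N * (((⌊N * c⌋ + g * d) / N : ℤ) : ℝ) := by
        rw [hfl, ← hk]
        simp only [Int.cast_add, Int.cast_mul, Int.cast_natCast]
        have : ((l + (N : ℤ) * ((⌊(N : ℝ) * c⌋ + g * ↑d) / (N : ℤ))) / (N : ℤ)) =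
          (⌊(N : ℝ) * c⌋ + g * ↑d) / (N : ℤ) := by
          rw [hk]
        rw [this]
      rw [← sub_div, div_eq_iff hNr.ne']
      linarith
    rw [h2, div_lt_iff₀ hNr] at h1
    have h5 := Int.fract_nonneg y
    linarith
  have h1 : S.card ≤ (Finset.Ico (0 : ℤ) ⌈θ * N⌉).card := by
    refine card_le_card_of_injOn f hmap (hinj.mono ?_)
    rw [hS]
    exact_mod_cast filter_subset _ _
  rw [Int.card_Ico, sub_zero] at h1
  have h2 : (S.card : ℝ) ≤ (⌈θ * N⌉ : ℝ) := by
    have h3 : 0 ≤ ⌈θ * N⌉ := Int.ceil_nonneg (by positivity)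
    have h4 : ((⌈θ * N⌉.toNat : ℕ) : ℤ) = ⌈θ * N⌉ := Int.toNat_of_nonneg h3
    calc (S.card : ℝ) ≤ ((⌈θ * N⌉.toNat : ℕ) : ℝ) := by exact_mod_cast h1
      _ = (((⌈θ * N⌉.toNat : ℕ) : ℤ) : ℝ) := by norm_cast
      _ = _ := by rw [h4]
  have h3 := Int.ceil_lt_add_one (θ * N)
  linarith

/-- the value at the time `q` -/
noncomputable def val (c : ℕ → ℝ) (g : ℕ → ℤ) (q : ℕ) (u : ℤ) : ℝ := c q + g q * u / 2 ^ q

theorem val_add (c : ℕ → ℝ) (g : ℕ → ℤ) (q : ℕ) (u w : ℤ) :
    val c g q (u + 2 ^ q * w) = val c g q u + ((g q * w : ℤ) : ℝ) := by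
  unfold val
  push_cast
  field_simp
  ring

open Classical in
/-- the number of the `i < M` such that the value at `s + r (i + 1)` is in the arc -/
noncomputable def hits2 (c : ℕ → ℝ) (g : ℕ → ℤ) (r : ℕ) (b θ : ℝ) (s M : ℕ) (u : ℤ) : ℕ :=
  ((range M).filter (fun i => Int.fract (val c g (s + r * (i + 1)) u - b) < θ)).card

open Classical in
theorem hits2_succ (c : ℕ → ℝ) (g : ℕ → ℤ) (r : ℕ) (b θ : ℝ) (s M : ℕ) (u : ℤ) :
    hits2 c g r b θ s (M + 1) u =
      (if Int.fract (val c g (s + r) u - b) < θ then 1 else 0) + hits2 c g r b θ (s + r) M u := by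
  unfold hits2
  rw [card_filter, card_filter, sum_range_succ']
  rw [add_comm]
  have e0 : s + r * (0 + 1) = s + r := by ring
  rw [e0]
  congr 1
  apply sum_congr rfl
  intro i _
  have e : s + r * (i + 1 + 1) = s + r + r * (i + 1) := by ring
  rw [e]

open Classical in
/-- **Exponential moments, the 2-adic case.** -/
theorem moment2 (c : ℕ → ℝ) (g : ℕ → ℤ) (hg : ∀ q, Odd (g q)) (r : ℕ) (b θ E A : ℝ) (hθ : 0 ≤ θ)
    (hE : 1 ≤ E) (hA : 2 ^ r + (E - 1) * (θ * 2 ^ r + 1) ≤ A)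
    {ι : Type} (u : ι → ℤ) (m : ℝ) (M : ℕ) : ∀ (s : ℕ) (u₀ : ℤ) (S : Finset ι),
    (∀ i ∈ S, (2 : ℤ) ^ s ∣ u i - u₀) →
    (∀ v : ℤ, ((S.filter (fun i => (2 : ℤ) ^ (s + r * M) ∣ u i - v)).card : ℝ) ≤ m) →
    ∑ i ∈ S, E ^ hits2 c g r b θ s M (u i) ≤ m * A ^ M := by
  induction M with
  | zero =>
    intro s u₀ S hS hm
    have h1 : ∀ i ∈ S, E ^ hits2 c g r b θ s 0 (u i) = 1 := by
      intro i _
      unfold hits2
      simp
    rw [sum_congr rfl h1, sum_const, nsmul_eq_mul, mul_one, pow_zero, mul_one]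
    have h2 := hm u₀
    rw [filter_true_of_mem] at h2
    · exact h2
    · intro i hi
      simpa using hS i hi
  | succ M ih =>
    intro s u₀ S hS hm
    obtain ⟨dg, hdg⟩ : ∃ dg : ι → ℕ, ∀ i, dg i = (((u i - u₀) / 2 ^ s) % 2 ^ r).toNat := ⟨_, fun _ => rfl⟩
    have h2r : (0 : ℤ) < 2 ^ r := by positivity
    have hdgz : ∀ i, (dg i : ℤ) = ((u i - u₀) / 2 ^ s) % 2 ^ r := fun i => by
      rw [hdg]
      exact Int.toNat_of_nonneg (Int.emod_nonneg _ h2r.ne')
    have hdgB : ∀ i ∈ S, dg i ∈ range (2 ^ r) := by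
      intro i _
      rw [mem_range]
      have h1 : (dg i : ℤ) < 2 ^ r := by
        rw [hdgz]
        exact Int.emod_lt_of_pos _ h2r
      exact_mod_cast h1
    have hdgu : ∀ i ∈ S, ∃ w : ℤ, u i = (u₀ + 2 ^ s * dg i) + 2 ^ (s + r) * w := by
      intro i hi
      obtain ⟨y, hy⟩ := hS i hi
      have h1 : (u i - u₀) / 2 ^ s = y := by
        rw [hy]
        exact Int.mul_ediv_cancel_left _ (by positivity)
      have h2 := hdgz i
      rw [h1] at h2
      have h3 := Int.emod_add_mul_ediv y (2 ^ r)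
      rw [← h2] at h3
      refine ⟨y / 2 ^ r, ?_⟩
      have h4 : u i = u₀ + 2 ^ s * y := by linarith
      rw [h4, pow_add]
      conv_lhs => rw [← h3]
      ring
    obtain ⟨Hs, hHs⟩ : ∃ Hs, Hs = (range (2 ^ r)).filter
      (fun d : ℕ => Int.fract ((c (s + r) + g (s + r) * u₀ / 2 ^ (s + r) - b) + g (s + r) * d / 2 ^ r) < θ) :=
      ⟨_, rfl⟩
    have hHc : (Hs.card : ℝ) ≤ θ * 2 ^ r + 1 := by
      rw [hHs]
      exact card_hit2 r _ θ (g (s + r)) (hg _) hθ
    have hhit : ∀ i ∈ S, Int.fract (val c g (s + r) (u i) - b) < θ → dg i ∈ Hs := by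
      intro i hi hf
      rw [hHs, mem_filter]
      refine ⟨hdgB i hi, ?_⟩
      obtain ⟨w, hw⟩ := hdgu i hi
      rw [hw, val_add] at hf
      have e : val c g (s + r) (u₀ + 2 ^ s * dg i) + ((g (s + r) * w : ℤ) : ℝ) - b =
          ((c (s + r) + g (s + r) * u₀ / 2 ^ (s + r) - b) + g (s + r) * (dg i : ℝ) / 2 ^ r) +
            ((g (s + r) * w : ℤ) : ℝ) := by
        unfold val
        push_cast
        rw [pow_add]
        field_simp
        ring
      rw [e, Int.fract_add_intCast] at hf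
      exact hf
    have hE0 : 0 < E := by linarith
    have hA0 : 0 ≤ A := by
      have h2 : 0 ≤ (E - 1) * (θ * 2 ^ r + 1) := by
        have : 0 ≤ E - 1 := by linarith
        positivity
      have h3 : (0 : ℝ) < 2 ^ r := by positivity
      linarith
    have hm0 : 0 ≤ m := (Nat.cast_nonneg _).trans (hm 0)
    rw [← sum_fiberwise_of_maps_to hdgB]
    have hfib : ∀ d ∈ range (2 ^ r), ∑ i ∈ S.filter (fun i => dg i = d), E ^ hits2 c g r b θ s (M + 1) (u i) ≤
        (if d ∈ Hs then E else 1) * (m * A ^ M) := by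
      intro d _
      have h2 := ih (s + r) (u₀ + 2 ^ s * d) (S.filter (fun i => dg i = d)) (by
          intro i hi
          obtain ⟨hiS, hid⟩ := mem_filter.1 hi
          obtain ⟨w, hw⟩ := hdgu i hiS
          rw [hid] at hw
          exact ⟨w, by rw [hw]; ring⟩) (by
          intro v
          refine le_trans ?_ (hm v)
          rw [Nat.cast_le]
          apply card_le_card
          intro i hi
          rw [mem_filter, mem_filter] at hi
          rw [mem_filter]
          have e : s + r * (M + 1) = s + r + r * M := by ring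
          rw [e]
          exact ⟨hi.1.1, hi.2⟩)
      have h3 : ∀ i ∈ S.filter (fun i => dg i = d), E ^ hits2 c g r b θ s (M + 1) (u i) ≤
          (if d ∈ Hs then E else 1) * E ^ hits2 c g r b θ (s + r) M (u i) := by
        intro i hi
        obtain ⟨hiS, hid⟩ := mem_filter.1 hi
        rw [hits2_succ, pow_add]
        apply mul_le_mul_of_nonneg_right _ (by positivity)
        split_ifs with h4 h5 h5
        · rw [pow_one]
        · exact absurd (hid ▸ hhit i hiS h4) h5
        · rw [pow_zero]; exact hE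
        · rw [pow_zero]
      calc _ ≤ ∑ i ∈ S.filter (fun i => dg i = d),
            (if d ∈ Hs then E else 1) * E ^ hits2 c g r b θ (s + r) M (u i) := sum_le_sum h3
        _ = (if d ∈ Hs then E else 1) * ∑ i ∈ S.filter (fun i => dg i = d),
            E ^ hits2 c g r b θ (s + r) M (u i) := by rw [mul_sum]
        _ ≤ _ := by
            apply mul_le_mul_of_nonneg_left h2
            split_ifs <;> linarith
    refine (sum_le_sum hfib).trans ?_
    rw [← sum_mul]
    have hsum : ∑ d ∈ range (2 ^ r), (if d ∈ Hs then E else (1 : ℝ)) = 2 ^ r + (E - 1) * Hs.card := by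
      have h2 : ∀ d ∈ range (2 ^ r), (if d ∈ Hs then E else (1 : ℝ)) = 1 + (if d ∈ Hs then (E - 1) else 0) := by
        intro d _
        split_ifs <;> ring
      rw [sum_congr rfl h2, sum_add_distrib, sum_const, card_range, nsmul_eq_mul, mul_one,
        ← sum_filter, sum_const, nsmul_eq_mul]
      have h3 : (range (2 ^ r)).filter (fun d => d ∈ Hs) = Hs := by
        rw [filter_mem_eq_inter, inter_eq_right, hHs]
        exact filter_subset _ _
      rw [h3]
      push_cast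
      ring
    rw [hsum]
    have h4 : (2 : ℝ) ^ r + (E - 1) * Hs.card ≤ A := by
      refine le_trans ?_ hA
      have : (E - 1) * (Hs.card : ℝ) ≤ (E - 1) * (θ * 2 ^ r + 1) :=
        mul_le_mul_of_nonneg_left hHc (by linarith)
      linarith
    calc _ ≤ A * (m * A ^ M) := mul_le_mul_of_nonneg_right h4 (by positivity)
      _ = m * A ^ (M + 1) := by rw [pow_succ]; ring

end Pool.Agent.J4H78.NW
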