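import Mathlib
import Pool.Agent.J4H78.NW.TwoAdic

/-!
# Large deviations for the sequences `c_q + g_q u / 2 ^ q` modulo one: consequences
-/

set_option autoImplicit false

namespace Pool.Agent.J4H78.NW

open Finset

open Classical in
theorem devA2 (ε : ℝ) (hε : 0 < ε) (hε1 : ε ≤ 1) : ∃ r : ℕ, 1 ≤ r ∧ ∃ c₀ : ℝ, 0 < c₀ ∧
    ∀ (c : ℕ → ℝ) (g : ℕ → ℤ), (∀ q, Odd (g q)) →
    ∀ (b θ : ℝ), 0 ≤ θ → θ ≤ 1 → ∀ {ι : Type} (u : ι → ℤ) (m : ℝ) (M s : ℕ) (u₀ : ℤ) (S : Finset ι),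
    (∀ i ∈ S, (2 : ℤ) ^ s ∣ u i - u₀) →
    (∀ v : ℤ, ((S.filter (fun i => (2 : ℤ) ^ (s + r * M) ∣ u i - v)).card : ℝ) ≤ m) →
    ((S.filter (fun i => (θ + ε) * M ≤ hits2 c g r b θ s M (u i))).card : ℝ) ≤
      m * (2 ^ (r * M) * Real.exp (-(c₀ * M))) := by
  obtain ⟨r₁, hr₁⟩ := pow_unbounded_of_one_lt (4 / ε) (one_lt_two : (1 : ℝ) < 2)
  obtain ⟨r, hr⟩ : ∃ r, r = r₁ + 1 := ⟨_, rfl⟩
  have hrr : 4 / ε ≤ (2 : ℝ) ^ r := hr₁.le.trans (pow_le_pow_right₀ (by norm_num) (by omega))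
  have h2r : (0 : ℝ) < 2 ^ r := by positivity
  refine ⟨r, by omega, ε ^ 2 / 8, by positivity, ?_⟩
  intro c g hg b θ hθ hθ1 ι u m M s u₀ S hS hm
  obtain ⟨E, hE⟩ : ∃ E, E = 1 + ε / 4 := ⟨_, rfl⟩
  have hE1 : 1 ≤ E := by rw [hE]; linarith
  have hE0 : 0 < E := by linarith
  obtain ⟨A, hA⟩ : ∃ A : ℝ, A = 2 ^ r * (1 + (ε / 4) * (θ + ε / 4)) := ⟨_, rfl⟩
  have hmain := moment2 c g hg r b θ E A hθ hE1 (by
    have h1 : 1 ≤ 2 ^ r * (ε / 4) := by
      rw [div_le_iff₀ hε] at hrr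
      linarith
    rw [hA, hE]
    have h2 : (ε / 4) * (θ * 2 ^ r + 1) ≤ (ε / 4) * (θ * 2 ^ r + 2 ^ r * (ε / 4)) :=
      mul_le_mul_of_nonneg_left (by linarith) (by positivity)
    have e : (1 + ε / 4 - 1) * (θ * 2 ^ r + 1) = (ε / 4) * (θ * 2 ^ r + 1) := by ring
    rw [e]
    nlinarith) u m M s u₀ S hS hm
  obtain ⟨Bd, hBd⟩ : ∃ Bd, Bd = S.filter (fun i => (θ + ε) * M ≤ hits2 c g r b θ s M (u i)) := ⟨_, rfl⟩
  rw [← hBd]
  have hm0 : 0 ≤ m := (Nat.cast_nonneg _).trans (hm 0)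
  have h1 : (Bd.card : ℝ) * Real.exp ((θ + ε) * M * Real.log E) ≤ m * A ^ M := by
    calc (Bd.card : ℝ) * Real.exp ((θ + ε) * M * Real.log E)
        = ∑ _i ∈ Bd, Real.exp ((θ + ε) * M * Real.log E) := by rw [sum_const, nsmul_eq_mul]
      _ ≤ ∑ i ∈ Bd, E ^ hits2 c g r b θ s M (u i) := by
          apply sum_le_sum
          intro i hi
          rw [hBd, mem_filter] at hi
          have h2 : E ^ hits2 c g r b θ s M (u i) =
              Real.exp ((hits2 c g r b θ s M (u i) : ℝ) * Real.log E) := by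
            rw [mul_comm, Real.exp_mul, Real.exp_log hE0, Real.rpow_natCast]
          rw [h2]
          apply Real.exp_le_exp.2
          exact mul_le_mul_of_nonneg_right hi.2 (Real.log_nonneg hE1)
      _ ≤ ∑ i ∈ S, E ^ hits2 c g r b θ s M (u i) := by
          apply sum_le_sum_of_subset_of_nonneg
          · rw [hBd]; exact filter_subset _ _
          · intro i _ _; positivity
      _ ≤ _ := hmain
  have h2 : A ^ M ≤ 2 ^ (r * M) * Real.exp (((ε / 4) * (θ + ε / 4)) * M) := by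
    rw [hA, mul_pow, ← pow_mul]
    apply mul_le_mul_of_nonneg_left _ (by positivity)
    have h3 : 1 + (ε / 4) * (θ + ε / 4) ≤ Real.exp ((ε / 4) * (θ + ε / 4)) := by
      have := Real.add_one_le_exp ((ε / 4) * (θ + ε / 4))
      linarith
    calc _ ≤ (Real.exp ((ε / 4) * (θ + ε / 4))) ^ M := pow_le_pow_left₀ (by positivity) h3 M
      _ = _ := by rw [← Real.exp_nat_mul]; ring_nf
  have hlog : ε / 4 - (ε / 4) ^ 2 / 2 ≤ Real.log E := by
    have h3 := Real.le_log_one_add_of_nonneg (x := ε / 4) (by positivity)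
    rw [hE]
    refine le_trans ?_ h3
    rw [le_div_iff₀ (by positivity)]
    nlinarith [sq_nonneg (ε / 4), mul_pos hε hε, mul_pos (mul_pos hε hε) hε]
  have hexp : ((ε / 4) * (θ + ε / 4)) * M + -((θ + ε) * M * Real.log E) ≤ -(ε ^ 2 / 8 * M) := by
    have hM : (0 : ℝ) ≤ M := Nat.cast_nonneg _
    have h3 : ((ε / 4) * (θ + ε / 4)) - (θ + ε) * Real.log E ≤ -(ε ^ 2 / 8) := by
      have h4 : (θ + ε) * (ε / 4 - (ε / 4) ^ 2 / 2) ≤ (θ + ε) * Real.log E :=
        mul_le_mul_of_nonneg_left hlog (by linarith)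
      have h5 : (θ + ε) * (ε / 4) ^ 2 / 2 ≤ 2 * (ε / 4) ^ 2 / 2 := by
        have : (θ + ε) * (ε / 4) ^ 2 ≤ 2 * (ε / 4) ^ 2 :=
          mul_le_mul_of_nonneg_right (by linarith) (by positivity)
        linarith
      nlinarith
    nlinarith
  have h3 : (Bd.card : ℝ) = Bd.card * Real.exp ((θ + ε) * M * Real.log E) *
      Real.exp (-((θ + ε) * M * Real.log E)) := by
    rw [mul_assoc, ← Real.exp_add, add_neg_cancel, Real.exp_zero, mul_one]
  rw [h3]
  calc _ ≤ m * A ^ M * Real.exp (-((θ + ε) * M * Real.log E)) :=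
        mul_le_mul_of_nonneg_right h1 (Real.exp_pos _).le
    _ ≤ m * (2 ^ (r * M) * Real.exp (((ε / 4) * (θ + ε / 4)) * M)) *
        Real.exp (-((θ + ε) * M * Real.log E)) :=
        mul_le_mul_of_nonneg_right (mul_le_mul_of_nonneg_left h2 hm0) (Real.exp_pos _).le
    _ = m * (2 ^ (r * M) * Real.exp (((ε / 4) * (θ + ε / 4)) * M +
        -((θ + ε) * M * Real.log E))) := by rw [Real.exp_add]; ring
    _ ≤ _ := by
        apply mul_le_mul_of_nonneg_left _ hm0
        apply mul_le_mul_of_nonneg_left _ (by positivity)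
        exact Real.exp_le_exp.2 hexp

open Classical in
/-- the number of the `q < T` such that the value at `q` is in the arc `[b, b + θ)` modulo one -/
noncomputable def cnt2 (c : ℕ → ℝ) (g : ℕ → ℤ) (b θ : ℝ) (T : ℕ) (u : ℤ) : ℕ :=
  ((range T).filter (fun q => Int.fract (val c g q u - b) < θ)).card

open Classical in
theorem cnt2_le_sum (c : ℕ → ℝ) (g : ℕ → ℤ) (b θ : ℝ) (T r M : ℕ) (hr : 1 ≤ r) (hM : T ≤ r * M) (u : ℤ) :
    cnt2 c g b θ T u ≤ r + ∑ a ∈ range r, hits2 c g r b θ a M u := by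
  unfold cnt2 hits2
  have h1 : ((range T).filter (fun q => Int.fract (val c g q u - b) < θ)).card ≤
      r + ((range T).filter (fun q => r ≤ q ∧ Int.fract (val c g q u - b) < θ)).card := by
    have h2 : (range T).filter (fun q => Int.fract (val c g q u - b) < θ) ⊆
        range r ∪ (range T).filter (fun q => r ≤ q ∧ Int.fract (val c g q u - b) < θ) := by
      intro q hq
      rw [mem_filter] at hq
      rw [mem_union, mem_range, mem_filter]
      rcases lt_or_ge q r with h | h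
      · exact Or.inl h
      · exact Or.inr ⟨hq.1, h, hq.2⟩
    have h3 := (card_le_card h2).trans (card_union_le _ _)
    rwa [card_range] at h3
  refine h1.trans (Nat.add_le_add_left ?_ _)
  rw [← card_sigma]
  apply card_le_card_of_injOn (fun q => (⟨q % r, q / r - 1⟩ : (_ : ℕ) × ℕ))
  · intro q hq
    rw [mem_coe, mem_filter, mem_range] at hq
    rw [mem_coe, mem_sigma, mem_range, mem_filter, mem_range]
    have h2 : 1 ≤ q / r := (Nat.one_le_div_iff (by omega)).2 hq.2.1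
    refine ⟨Nat.mod_lt _ (by omega), ?_, ?_⟩
    · have h3 : q / r < M := by
        rw [Nat.div_lt_iff_lt_mul (by omega), mul_comm]
        omega
      show q / r - 1 < M
      omega
    · have e : q % r + r * (q / r - 1 + 1) = q := by
        have h3 := Nat.mod_add_div q r
        have h4 : q / r - 1 + 1 = q / r := by omega
        rw [h4]
        exact h3
      simp only
      rw [e]
      exact hq.2.2
  · intro q hq q' hq' h
    rw [mem_coe, mem_filter, mem_range] at hq hq'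
    simp only [Sigma.mk.injEq, heq_eq_eq] at h
    have h2 : 1 ≤ q / r := (Nat.one_le_div_iff (by omega)).2 hq.2.1
    have h2' : 1 ≤ q' / r := (Nat.one_le_div_iff (by omega)).2 hq'.2.1
    have h3 := Nat.mod_add_div q r
    have h4 := Nat.mod_add_div q' r
    have h5 : q / r = q' / r := by omega
    rw [h.1, h5] at h3
    omega

open Classical in
/-- **Large deviations for the frequencies, the 2-adic case.** -/
theorem devB2 (ε : ℝ) (hε : 0 < ε) (hε1 : ε ≤ 1) : ∃ (C c₀ : ℝ) (T₀ : ℕ), 0 < c₀ ∧ 0 ≤ C ∧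
    ∀ (c : ℕ → ℝ) (g : ℕ → ℤ), (∀ q, Odd (g q)) →
    ∀ (b θ : ℝ), 0 ≤ θ → θ ≤ 1 → ∀ {ι : Type} (u : ι → ℤ) (m : ℝ) (T : ℕ), T₀ ≤ T →
    ∀ (S : Finset ι),
    (∀ v : ℤ, ((S.filter (fun i => (2 : ℤ) ^ T ∣ u i - v)).card : ℝ) ≤ m) →
    ((S.filter (fun i => (θ + ε) * T ≤ cnt2 c g b θ T (u i))).card : ℝ) ≤
      C * (m * (2 ^ T * Real.exp (-(c₀ * T)))) := by
  obtain ⟨r, hr, c₀, hc₀, hdev⟩ := devA2 (ε / 2) (by positivity) (by linarith)
  have hrr : (0 : ℝ) < r := by exact_mod_cast hr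
  refine ⟨r * (2 ^ r * 2 ^ r), c₀ / r, ⌈8 * r / ε⌉₊, by positivity, by positivity, ?_⟩
  intro c g hg b θ hθ hθ1 ι u m T hT S hm
  have hTr : 8 * r / ε ≤ T := (Nat.le_ceil _).trans (by exact_mod_cast hT)
  rw [div_le_iff₀ hε] at hTr
  obtain ⟨M, hM⟩ : ∃ M, M = T / r + 1 := ⟨_, rfl⟩
  have hM1 : T ≤ r * M := by
    rw [hM]
    have h1 := Nat.mod_add_div T r
    have h2 := Nat.mod_lt T (by omega : r > 0)
    rw [mul_add, mul_one]
    omega
  have hM2 : r * M ≤ T + r := by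
    rw [hM, mul_add, mul_one]
    have h1 := Nat.mod_add_div T r
    omega
  have hM1r : (T : ℝ) ≤ r * M := by exact_mod_cast hM1
  have hM2r : (r : ℝ) * M ≤ T + r := by exact_mod_cast hM2
  have hm0 : 0 ≤ m := (Nat.cast_nonneg _).trans (hm 0)
  obtain ⟨Bd, hBd⟩ : ∃ Bd : ℕ → Finset ι, ∀ a', Bd a' =
    S.filter (fun i => (θ + ε / 2) * M ≤ hits2 c g r b θ a' M (u i)) := ⟨_, fun _ => rfl⟩
  have hsub : S.filter (fun i => (θ + ε) * T ≤ cnt2 c g b θ T (u i)) ⊆ (range r).biUnion Bd := by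
    intro i hi
    obtain ⟨hiS, hi2⟩ := mem_filter.1 hi
    have h1 := cnt2_le_sum c g b θ T r M hr hM1 (u i)
    have h2 : ((cnt2 c g b θ T (u i) : ℕ) : ℝ) ≤
        r + ∑ a' ∈ range r, (hits2 c g r b θ a' M (u i) : ℝ) := by exact_mod_cast h1
    by_contra hcon
    have h3 : ∀ a' ∈ range r, (hits2 c g r b θ a' M (u i) : ℝ) ≤ (θ + ε / 2) * M := by
      intro a' ha'
      by_contra h4
      push Not at h4
      apply hcon
      rw [mem_biUnion]
      refine ⟨a', ha', ?_⟩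
      rw [hBd, mem_filter]
      exact ⟨hiS, h4.le⟩
    have h4 := sum_le_sum h3
    rw [sum_const, card_range, nsmul_eq_mul] at h4
    have h5 : (θ + ε) * T ≤ r + r * ((θ + ε / 2) * M) := by linarith
    have h6 : (r : ℝ) * ((θ + ε / 2) * M) = (θ + ε / 2) * (r * M) := by ring
    rw [h6] at h5
    have h7 : (θ + ε / 2) * (r * M) ≤ (θ + ε / 2) * (T + r) :=
      mul_le_mul_of_nonneg_left hM2r (by positivity)
    have h8 : (θ + ε / 2) * r ≤ 3 / 2 * r := mul_le_mul_of_nonneg_right (by linarith) hrr.le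
    nlinarith
  have hBdc : ∀ a' ∈ range r, ((Bd a').card : ℝ) ≤
      2 ^ r * (m * (2 ^ r * (2 ^ T * Real.exp (-(c₀ / r * T))))) := by
    intro a' ha'
    rw [mem_range] at ha'
    obtain ⟨dg, hdg⟩ : ∃ dg : ι → ℕ, ∀ i, dg i = ((u i) % 2 ^ a').toNat := ⟨_, fun _ => rfl⟩
    have h2a : (0 : ℤ) < 2 ^ a' := by positivity
    have hdgz : ∀ i, (dg i : ℤ) = (u i) % 2 ^ a' := fun i => by
      rw [hdg]
      exact Int.toNat_of_nonneg (Int.emod_nonneg _ h2a.ne')
    have hdgB : ∀ i ∈ Bd a', dg i ∈ range (2 ^ a') := by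
      intro i _
      rw [mem_range]
      have h1 : (dg i : ℤ) < 2 ^ a' := by
        rw [hdgz]
        exact Int.emod_lt_of_pos _ h2a
      exact_mod_cast h1
    have hfib : ∀ d ∈ range (2 ^ a'), (((Bd a').filter (fun i => dg i = d)).card : ℝ) ≤
        m * (2 ^ r * (2 ^ T * Real.exp (-(c₀ / r * T)))) := by
      intro d _
      have h2 := hdev c g hg b θ hθ hθ1 u m M a' d (S.filter (fun i => dg i = d)) (by
          intro i hi
          obtain ⟨hiS, hid⟩ := mem_filter.1 hi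
          have h3 := hdgz i
          rw [hid] at h3
          rw [h3]
          exact Int.dvd_self_sub_emod) (by
          intro v
          refine le_trans ?_ (hm v)
          rw [Nat.cast_le]
          apply card_le_card
          intro i hi
          rw [mem_filter, mem_filter] at hi
          rw [mem_filter]
          refine ⟨hi.1.1, (pow_dvd_pow 2 (by omega : T ≤ a' + r * M)).trans hi.2⟩)
      have h3 : ((Bd a').filter (fun i => dg i = d)) =
          ((S.filter (fun i => dg i = d)).filter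
            (fun i => (θ + ε / 2) * M ≤ hits2 c g r b θ a' M (u i))) := by
        rw [hBd]
        ext i
        simp only [mem_filter]
        tauto
      rw [h3]
      refine h2.trans (mul_le_mul_of_nonneg_left ?_ hm0)
      have h4 : (2 : ℝ) ^ (r * M) ≤ 2 ^ r * 2 ^ T := by
        rw [← pow_add]
        exact pow_le_pow_right₀ (by norm_num) (by omega)
      have h5 : Real.exp (-(c₀ * M)) ≤ Real.exp (-(c₀ / r * T)) := by
        apply Real.exp_le_exp.2
        have : c₀ / r * T ≤ c₀ * M := by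
          rw [div_mul_eq_mul_div, div_le_iff₀ hrr]
          nlinarith
        linarith
      calc (2 : ℝ) ^ (r * M) * Real.exp (-(c₀ * M)) ≤ (2 ^ r * 2 ^ T) * Real.exp (-(c₀ / r * T)) :=
            mul_le_mul h4 h5 (Real.exp_pos _).le (by positivity)
        _ = _ := by ring
    have h2 : ((Bd a').card : ℝ) =
        ∑ d ∈ range (2 ^ a'), (((Bd a').filter (fun i => dg i = d)).card : ℝ) := by
      rw [card_eq_sum_card_fiberwise hdgB]
      push_cast
      rfl
    rw [h2]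
    refine (sum_le_sum hfib).trans ?_
    rw [sum_const, card_range, nsmul_eq_mul]
    apply mul_le_mul_of_nonneg_right _ (by positivity)
    push_cast
    exact pow_le_pow_right₀ (by norm_num) ha'.le
  calc _ ≤ (((range r).biUnion Bd).card : ℝ) := by exact_mod_cast card_le_card hsub
    _ ≤ ((∑ a' ∈ range r, (Bd a').card : ℕ) : ℝ) := by exact_mod_cast card_biUnion_le
    _ = ∑ a' ∈ range r, ((Bd a').card : ℝ) := by push_cast; rfl
    _ ≤ ∑ _a' ∈ range r, 2 ^ r * (m * (2 ^ r * (2 ^ T * Real.exp (-(c₀ / r * T))))) := sum_le_sum hBdc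
    _ = _ := by rw [sum_const, card_range, nsmul_eq_mul]; ring

end Pool.Agent.J4H78.NW
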