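import Mathlib
import Pool.Agent.J4H78.NW.TwoAdic2
import Pool.Agent.J4H78.NW.RealDev3

/-!
# Large deviations at the right edge of the light cone
-/

set_option autoImplicit false

namespace Pool.Agent.J4H78.NW

open Finset

theorem nine_pow (T : ℕ) : ∀ n : ℕ, 2 ^ (T + 3) ∣ 9 ^ n - 1 → 2 ^ T ∣ n := by
  induction T with
  | zero => intro n _; simp
  | succ T ih =>
    intro n hn
    have h16 : 16 ∣ 9 ^ n - 1 := by
      refine Dvd.dvd.trans ?_ hn
      calc 16 = 2 ^ 4 := by norm_num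
        _ ∣ 2 ^ (T + 1 + 3) := pow_dvd_pow 2 (by omega)
    have hper : ∀ k : ℕ, 9 ^ (2 * k) % 16 = 1 := by
      intro k
      rw [pow_mul, Nat.pow_mod]
      norm_num
    obtain ⟨k, hk⟩ : ∃ k, n = 2 * k := by
      rcases Nat.even_or_odd' n with ⟨k, hk | hk⟩
      · exact ⟨k, hk⟩
      · exfalso
        rw [hk, pow_succ] at h16
        have h1 := hper k
        have h2 : 9 ^ (2 * k) ≥ 1 := Nat.one_le_pow _ _ (by norm_num)
        omega
    have hmod8 : 9 ^ k % 8 = 1 := by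
      rw [Nat.pow_mod]
      norm_num
    obtain ⟨a, ha⟩ : ∃ a, 9 ^ k = 8 * a + 1 := ⟨9 ^ k / 8, by omega⟩
    have h3 : 9 ^ n - 1 = 2 * ((4 * a + 1) * (9 ^ k - 1)) := by
      rw [hk, two_mul, pow_add, ha]
      have : (8 * a + 1) * (8 * a + 1) = 2 * ((4 * a + 1) * (8 * a)) + 1 := by ring
      rw [this]
      simp
    rw [h3, show T + 1 + 3 = (T + 3) + 1 by ring, pow_succ, mul_comm (2 ^ (T + 3)) 2] at hn
    have h4 : 2 ^ (T + 3) ∣ (4 * a + 1) * (9 ^ k - 1) := Nat.dvd_of_mul_dvd_mul_left (by norm_num) hn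
    have hcop : Nat.Coprime (2 ^ (T + 3)) (4 * a + 1) := by
      apply Nat.Coprime.pow_left
      rw [Nat.coprime_two_left]
      exact ⟨2 * a, by ring⟩
    have h5 : 2 ^ (T + 3) ∣ 9 ^ k - 1 := hcop.dvd_of_dvd_mul_left h4
    obtain ⟨c, hc⟩ := ih k h5
    exact ⟨c, by rw [hk, hc]; ring⟩

/-- the sequence `(9 ^ i - 1) / 8` -/
def uu (i : ℕ) : ℤ := ((9 ^ i - 1) / 8 : ℕ)

theorem uu_eq (i : ℕ) : 8 * uu i + 1 = 9 ^ i := by
  unfold uu
  have h : 9 ^ i % 8 = 1 := by rw [Nat.pow_mod]; norm_num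
  have h2 : 8 * ((9 ^ i - 1) / 8) + 1 = 9 ^ i := by
    generalize 9 ^ i = z at h
    omega
  have h3 : ((8 * ((9 ^ i - 1) / 8) + 1 : ℕ) : ℤ) = ((9 ^ i : ℕ) : ℤ) := by rw [h2]
  push_cast at h3
  exact_mod_cast h3

theorem uu_sep {T i i' : ℕ} (hii : i' ≤ i) (h : (2 : ℤ) ^ T ∣ uu i - uu i') : 2 ^ T ∣ i - i' := by
  apply nine_pow
  have h1 : (2 : ℤ) ^ (T + 3) ∣ 9 ^ i - 9 ^ i' := by
    rw [← uu_eq, ← uu_eq]
    have : (8 * uu i + 1 - (8 * uu i' + 1)) = (uu i - uu i') * 2 ^ 3 := by ring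
    rw [this, pow_add]
    exact mul_dvd_mul h (dvd_refl _)
  have h2 : (9 : ℤ) ^ i - 9 ^ i' = 9 ^ i' * (9 ^ (i - i') - 1) := by
    rw [mul_sub, ← pow_add, mul_one]
    congr 2
    omega
  rw [h2] at h1
  have hcop : IsCoprime ((2 : ℤ) ^ (T + 3)) (9 ^ i') := by
    apply IsCoprime.pow
    rw [Int.isCoprime_iff_gcd_eq_one]
    decide
  have h3 := hcop.dvd_of_dvd_mul_left h1
  have h4 : 1 ≤ 9 ^ (i - i') := Nat.one_le_pow _ _ (by norm_num)
  have h5 : ((2 ^ (T + 3) : ℕ) : ℤ) ∣ ((9 ^ (i - i') - 1 : ℕ) : ℤ) := by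
    rw [Nat.cast_sub h4]
    push_cast
    exact h3
  exact_mod_cast h5

open Classical in
theorem uu_card (T X : ℕ) (v : ℤ) :
    ((range (X + 1)).filter (fun i => (2 : ℤ) ^ T ∣ uu i - v)).card ≤ X / 2 ^ T + 1 := by
  obtain ⟨S, hS⟩ : ∃ S, S = (range (X + 1)).filter (fun i => (2 : ℤ) ^ T ∣ uu i - v) := ⟨_, rfl⟩
  rw [← hS, ← card_range (X / 2 ^ T + 1)]
  have h2 : 0 < 2 ^ T := by positivity
  have key : ∀ i ∈ S, ∀ i' ∈ S, i' ≤ i → i / 2 ^ T = i' / 2 ^ T → i = i' := by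
    intro i hi i' hi' hle he
    rw [hS, mem_filter] at hi hi'
    have h3 : (2 : ℤ) ^ T ∣ uu i - uu i' := by
      have := dvd_sub hi.2 hi'.2
      rwa [sub_sub_sub_cancel_right] at this
    have h4 := uu_sep hle h3
    by_contra hne
    have h5 : 2 ^ T ≤ i - i' := Nat.le_of_dvd (by omega) h4
    have h6 : i' / 2 ^ T + 1 ≤ i / 2 ^ T := by
      rw [← Nat.add_div_right _ h2]
      exact Nat.div_le_div_right (by omega)
    omega
  apply card_le_card_of_injOn (fun i => i / 2 ^ T)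
  · intro i hi
    rw [mem_coe, hS, mem_filter, mem_range] at hi
    rw [mem_coe, mem_range]
    have : i / 2 ^ T ≤ X / 2 ^ T := Nat.div_le_div_right (by omega)
    show i / 2 ^ T < _
    omega
  · intro i hi i' hi' he
    rcases le_total i' i with h | h
    · exact key i hi i' hi' h he
    · exact (key i' hi' i hi h he.symm).symm

open Classical in
theorem cnt2_compl (c : ℕ → ℝ) (g : ℕ → ℤ) (b θ : ℝ) (hθ : 0 ≤ θ) (hθ1 : θ ≤ 1) (T : ℕ) (u : ℤ) :
    cnt2 c g b θ T u + cnt2 c g (b + θ) (1 - θ) T u = T := by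
  unfold cnt2
  have e : (range T).filter (fun q => Int.fract (val c g q u - (b + θ)) < 1 - θ) =
      (range T).filter (fun q => ¬ Int.fract (val c g q u - b) < θ) := by
    apply filter_congr
    intro t _
    rw [← fract_compl _ θ hθ hθ1]
    have e1 : val c g t u - (b + θ) = val c g t u - b - θ := by ring
    rw [e1]
  rw [e, card_filter_add_card_filter_not, card_range]

open Classical in
/-- the number of the `t < T` with `m 3^(2 i + k + t) / 2^(k + t)` in the arc -/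
noncomputable def cntR (m k : ℕ) (b θ : ℝ) (T i : ℕ) : ℕ :=
  ((range T).filter (fun t => Int.fract ((m : ℝ) * 3 ^ (2 * i + (k + t)) / 2 ^ (k + t) - b) < θ)).card

open Classical in
theorem shift_count (P : ℕ → Prop) (a b T : ℕ) :
    ((range T).filter (fun t => P (a + t))).card ≤ ((range T).filter (fun t => P (b + t))).card + (a + b) := by
  have h : ((range T).filter (fun t => P (a + t))).card ≤
      ((((range T).filter (fun t => P (b + t))).image (fun t => b + t)) ∪ (Ico a b ∪ Ico (b + T) (a + T))).card := by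
    apply card_le_card_of_injOn (fun t => a + t)
    · intro t ht
      rw [mem_coe, mem_filter, mem_range] at ht
      rw [mem_coe, mem_union, mem_union, mem_image, mem_Ico, mem_Ico]
      by_cases h1 : b ≤ a + t
      · by_cases h2 : a + t < b + T
        · left
          refine ⟨a + t - b, ?_, ?_⟩
          · rw [mem_filter, mem_range]
            refine ⟨by omega, ?_⟩
            have e : b + (a + t - b) = a + t := by omega
            rw [e]
            exact ht.2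
          · show b + (a + t - b) = a + t
            omega
        · right; right
          show b + T ≤ a + t ∧ a + t < a + T
          omega
      · right; left
        show a ≤ a + t ∧ a + t < b
        omega
    · intro t _ t' _ he
      have : a + t = a + t' := he
      omega
  refine h.trans ((card_union_le _ _).trans ?_)
  refine Nat.add_le_add card_image_le ((card_union_le _ _).trans ?_)
  rw [Nat.card_Ico, Nat.card_Ico]
  omega

open Classical in
theorem rightA (m k : ℕ) (hm : 0 < m) (ε : ℝ) (hε : 0 < ε) (hε1 : ε ≤ 1) : ∃ (C c : ℝ), 0 < c ∧ 0 < C ∧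
    ∀ X : ℕ, 1 ≤ X → ∀ T : ℕ, (T : ℝ) ≤ Real.log X → ∀ b θ : ℝ, 0 ≤ θ → θ ≤ 1 →
    (((range (X + 1)).filter (fun i => ε * T ≤ |(cntR m k b θ T i : ℝ) - θ * T|)).card : ℝ) ≤
      C * (X * Real.exp (-(c * T))) := by
  obtain ⟨C₀, c, T₀, hc, hC₀, hdev⟩ := devB2 (ε / 2) (by positivity) (by linarith)
  obtain ⟨v, m', hm', hmv⟩ := Nat.exists_eq_two_pow_mul_odd hm.ne'
  obtain ⟨s₀, hs₀⟩ : ∃ s₀, s₀ = v + 3 := ⟨_, rfl⟩
  obtain ⟨T₁, hT₁⟩ : ∃ T₁, T₁ = max T₀ ⌈2 * ((k : ℝ) + s₀) / ε⌉₊ := ⟨_, rfl⟩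
  obtain ⟨cf, hcf⟩ : ∃ cf : ℕ → ℝ, ∀ q, cf q = (m' : ℝ) * 3 ^ (q + s₀) / 2 ^ (q + 3) := ⟨_, fun _ => rfl⟩
  obtain ⟨g, hg⟩ : ∃ g : ℕ → ℤ, ∀ q, g q = (m' : ℤ) * 3 ^ (q + s₀) := ⟨_, fun _ => rfl⟩
  have hgodd : ∀ q, Odd (g q) := by
    intro q
    rw [hg]
    apply Odd.mul
    · exact_mod_cast hm'
    · exact Odd.pow (by decide)
  have hval : ∀ q i, (m : ℝ) * 3 ^ (2 * i + (s₀ + q)) / 2 ^ (s₀ + q) = val cf g q (uu i) := by
    intro q i
    unfold val
    rw [hcf, hg]
    have h9 : (9 : ℝ) ^ i = 8 * (uu i : ℝ) + 1 := by exact_mod_cast (uu_eq i).symm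
    have hmr : (m : ℝ) = 2 ^ v * m' := by exact_mod_cast hmv
    have e1 : (3 : ℝ) ^ (2 * i + (s₀ + q)) = (8 * (uu i : ℝ) + 1) * 3 ^ (q + s₀) := by
      rw [pow_add, pow_mul, ← h9, add_comm s₀ q]
      norm_num
    have e2 : (2 : ℝ) ^ (s₀ + q) = 2 ^ v * (2 ^ 3 * 2 ^ q) := by
      rw [hs₀, ← pow_add, ← pow_add]
      congr 1
      omega
    have e3 : (2 : ℝ) ^ (q + 3) = 2 ^ q * 2 ^ 3 := pow_add _ _ _
    rw [e1, e2, e3, hmr]
    push_cast
    field_simp
    ring
  refine ⟨2 * Real.exp (c * T₁) + 4 * C₀, c, hc, by positivity, ?_⟩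
  intro X hX T hT b θ hθ hθ1
  have hXr : (1 : ℝ) ≤ X := by exact_mod_cast hX
  rcases lt_or_ge T T₁ with hTT | hTT
  · -- small `T`
    have h1 : (((range (X + 1)).filter (fun i => ε * T ≤ |(cntR m k b θ T i : ℝ) - θ * T|)).card : ℝ) ≤
        X + 1 := by
      have := card_filter_le (range (X + 1)) (fun i => ε * T ≤ |(cntR m k b θ T i : ℝ) - θ * T|)
      rw [card_range] at this
      exact_mod_cast this
    have hTr : (T : ℝ) ≤ T₁ := by exact_mod_cast hTT.le
    have h2 : 1 ≤ Real.exp (c * T₁) * Real.exp (-(c * T)) := by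
      rw [← Real.exp_add]
      apply Real.one_le_exp
      nlinarith
    calc _ ≤ (X : ℝ) + 1 := h1
      _ ≤ 2 * X := by linarith
      _ ≤ 2 * X * (Real.exp (c * T₁) * Real.exp (-(c * T))) := le_mul_of_one_le_right (by positivity) h2
      _ = 2 * Real.exp (c * T₁) * (X * Real.exp (-(c * T))) := by ring
      _ ≤ _ := by
        apply mul_le_mul_of_nonneg_right _ (by positivity)
        linarith
  · have hT0 : T₀ ≤ T := by rw [hT₁] at hTT; exact (le_max_left _ _).trans hTT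
    have hTk : (k : ℝ) + s₀ ≤ ε / 2 * T := by
      have h1 : ⌈2 * ((k : ℝ) + s₀) / ε⌉₊ ≤ T := by rw [hT₁] at hTT; exact (le_max_right _ _).trans hTT
      have h2 : 2 * ((k : ℝ) + s₀) / ε ≤ T := (Nat.le_ceil _).trans (by exact_mod_cast h1)
      rw [div_le_iff₀ hε] at h2
      linarith
    have h2T : (2 : ℝ) ^ T ≤ X := by
      have h1 : (2 : ℝ) ^ T ≤ Real.exp T := by
        rw [← Real.exp_one_rpow, Real.rpow_natCast]
        apply pow_le_pow_left₀ (by norm_num)
        have := Real.exp_one_gt_d9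
        linarith
      refine h1.trans ?_
      rw [← Real.le_log_iff_exp_le (by linarith)]
      exact hT
    have hcell : ∀ w : ℤ, (((range (X + 1)).filter (fun i => (2 : ℤ) ^ T ∣ uu i - w)).card : ℝ) ≤
        2 * X / 2 ^ T := by
      intro w
      have h1 : (((range (X + 1)).filter (fun i => (2 : ℤ) ^ T ∣ uu i - w)).card : ℝ) ≤
          ((X / 2 ^ T + 1 : ℕ) : ℝ) := by exact_mod_cast uu_card T X w
      refine h1.trans ?_
      push_cast
      have h3 : (((X / 2 ^ T : ℕ) : ℕ) : ℝ) ≤ (X : ℝ) / 2 ^ T := by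
        have := Nat.cast_div_le (α := ℝ) (m := X) (n := 2 ^ T)
        push_cast at this
        exact this
      have h4 : 1 ≤ (X : ℝ) / 2 ^ T := by rw [le_div_iff₀ (by positivity)]; linarith
      have e : 2 * (X : ℝ) / 2 ^ T = X / 2 ^ T + X / 2 ^ T := by ring
      rw [e]
      linarith
    have hup := hdev cf g hgodd b θ hθ hθ1 uu (2 * X / 2 ^ T) T hT0 (range (X + 1)) hcell
    have hlo := hdev cf g hgodd (b + θ) (1 - θ) (by linarith) (by linarith) uu (2 * X / 2 ^ T) T hT0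
      (range (X + 1)) hcell
    have hR : C₀ * ((2 * X / 2 ^ T) * (2 ^ T * Real.exp (-(c * T)))) = 2 * C₀ * (X * Real.exp (-(c * T))) := by
      have : (2 : ℝ) ^ T ≠ 0 := by positivity
      field_simp
    rw [hR] at hup hlo
    -- comparison of the counts
    have hc1 : ∀ i, (cntR m k b θ T i : ℝ) ≤ cnt2 cf g b θ T (uu i) + (k + s₀) := by
      intro i
      have h1 := shift_count (fun t' => Int.fract ((m : ℝ) * 3 ^ (2 * i + t') / 2 ^ t' - b) < θ) k s₀ T
      have h2 : cnt2 cf g b θ T (uu i) = ((range T).filter (fun t =>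
          Int.fract ((m : ℝ) * 3 ^ (2 * i + (s₀ + t)) / 2 ^ (s₀ + t) - b) < θ)).card := by
        unfold cnt2
        simp only [hval]
      rw [← h2] at h1
      unfold cntR
      exact_mod_cast h1
    have hc2 : ∀ i, (cnt2 cf g b θ T (uu i) : ℝ) ≤ cntR m k b θ T i + (k + s₀) := by
      intro i
      have h1 := shift_count (fun t' => Int.fract ((m : ℝ) * 3 ^ (2 * i + t') / 2 ^ t' - b) < θ) s₀ k T
      have h2 : cnt2 cf g b θ T (uu i) = ((range T).filter (fun t =>
          Int.fract ((m : ℝ) * 3 ^ (2 * i + (s₀ + t)) / 2 ^ (s₀ + t) - b) < θ)).card := by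
        unfold cnt2
        simp only [hval]
      rw [← h2] at h1
      unfold cntR
      have h3 : ((cnt2 cf g b θ T (uu i) : ℕ) : ℝ) ≤ ((range T).filter (fun t =>
        Int.fract ((m : ℝ) * 3 ^ (2 * i + (k + t)) / 2 ^ (k + t) - b) < θ)).card + ((s₀ : ℝ) + k) := by
        exact_mod_cast h1
      linarith
    have hsub : (range (X + 1)).filter (fun i => ε * T ≤ |(cntR m k b θ T i : ℝ) - θ * T|) ⊆
        ((range (X + 1)).filter (fun i => (θ + ε / 2) * T ≤ cnt2 cf g b θ T (uu i))) ∪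
        ((range (X + 1)).filter (fun i => (1 - θ + ε / 2) * T ≤ cnt2 cf g (b + θ) (1 - θ) T (uu i))) := by
      intro i hi
      rw [mem_filter] at hi
      rw [mem_union, mem_filter, mem_filter]
      have h1 := hc1 i
      have h2 := hc2 i
      have h3 : (cnt2 cf g b θ T (uu i) : ℝ) + cnt2 cf g (b + θ) (1 - θ) T (uu i) = T := by
        exact_mod_cast cnt2_compl cf g b θ hθ hθ1 T (uu i)
      rcases le_abs.1 hi.2 with h4 | h4
      · left
        refine ⟨hi.1, ?_⟩
        nlinarith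
      · right
        refine ⟨hi.1, ?_⟩
        nlinarith
    have h5 : (((range (X + 1)).filter (fun i => ε * T ≤ |(cntR m k b θ T i : ℝ) - θ * T|)).card : ℝ) ≤
        (((range (X + 1)).filter (fun i => (θ + ε / 2) * T ≤ cnt2 cf g b θ T (uu i))).card : ℝ) +
        (((range (X + 1)).filter (fun i => (1 - θ + ε / 2) * T ≤ cnt2 cf g (b + θ) (1 - θ) T (uu i))).card : ℝ) := by
      exact_mod_cast (card_le_card hsub).trans (card_union_le _ _)
    have h6 : 0 ≤ 2 * Real.exp (c * T₁) * (X * Real.exp (-(c * T))) := by positivity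
    rw [add_mul]
    linarith

end Pool.Agent.J4H78.NW
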