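import Mathlib
import Pool.Agent.J4H78.TS.Shows

/-!
# The word shown at a position, in terms of the fractional part
-/

set_option autoImplicit false

namespace Pool.Agent.J4H78.NW

open Pool.Agent.H429R2.Auto
open Pool.Agent.J4H78.TS (ShowsW code code_lt shows_of)

theorem shows_iff {x : Conf} {β : ℝ} (hβ : 0 ≤ β) (hx : Rep x β) (w : List (Fin 6)) (j : ℤ) (n : ℕ) :
    ShowsW (F^[n] x) w j ↔ ⌊(6 : ℝ) ^ (j + w.length - 1) * ((3 / 2) ^ n * β)⌋₊ % 6 ^ w.length = code w := by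
  refine ⟨fun h => ?_, shows_of hβ hx w j n⟩
  apply eq_of_digits w.length _ _ (Nat.mod_lt _ (by positivity)) (code_lt w)
  intro r hr
  have h1 := letter (rep_iter hβ hx n) j w.length r hr
  rw [← h1]
  have h2 := digits_sum w.length (fun r => w.getD (w.length - 1 - r) 0) r hr
  unfold code
  rw [h2]
  have h3 := h (w.length - 1 - r) (by omega)
  have e1 : j + ((w.length - 1 - r : ℕ) : ℤ) = j + (w.length : ℤ) - 1 - (r : ℤ) := by omega
  rw [e1] at h3
  rw [h3]
  have h4 : w.getD (w.length - 1 - r) 0 = w[w.length - 1 - r]'(by omega) := by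
    rw [List.getD_eq_getElem?_getD, List.getElem?_eq_getElem (by omega)]; rfl
  rw [h4]

theorem fract_iff (V : ℝ) (hV : 0 ≤ V) (A : ℕ) (k : ℕ) (hk : k < A) :
    ⌊V⌋₊ % A = k ↔ Int.fract (V / A - (k : ℝ) / A) < 1 / A := by
  have hA : 0 < A := by omega
  have hAr : (0 : ℝ) < A := by exact_mod_cast hA
  obtain ⟨r, hr⟩ : ∃ r, r = ⌊V⌋₊ % A := ⟨_, rfl⟩
  obtain ⟨y, hy⟩ : ∃ y, y = ⌊V⌋₊ / A := ⟨_, rfl⟩
  have hrA : r < A := by rw [hr]; exact Nat.mod_lt _ hA
  have hfl : ⌊V⌋₊ = A * y + r := by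
    rw [hr, hy]
    exact (Nat.div_add_mod _ _).symm
  have h1 : ((A * y + r : ℕ) : ℝ) ≤ V ∧ V < ((A * y + r : ℕ) : ℝ) + 1 := by
    rw [← hfl]
    exact ⟨Nat.floor_le hV, Nat.lt_floor_add_one V⟩
  push_cast at h1
  obtain ⟨f, hf⟩ : ∃ f : ℝ, f = V - (A * y + r) := ⟨_, rfl⟩
  have hf0 : 0 ≤ f := by linarith [h1.1]
  have hf1 : f < 1 := by linarith [h1.2]
  have eV : V / A - (k : ℝ) / A = y + ((r : ℝ) - k + f) / A := by
    rw [hf]
    field_simp
    ring
  rw [eV, ← hr]
  have e3 : ((y : ℝ)) = ((y : ℤ) : ℝ) := by push_cast; rfl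
  rw [e3, Int.fract_intCast_add]
  have hkr : (k : ℝ) + 1 ≤ A := by exact_mod_cast hk
  have hrr : (r : ℝ) + 1 ≤ A := by exact_mod_cast hrA
  have hk0 : (0 : ℝ) ≤ k := Nat.cast_nonneg k
  have hr0 : (0 : ℝ) ≤ r := Nat.cast_nonneg r
  rcases lt_trichotomy r k with h | h | h
  · have h2 : (r : ℝ) + 1 ≤ k := by exact_mod_cast h
    have e : Int.fract (((r : ℝ) - k + f) / A) = ((r : ℝ) - k + f) / A + 1 := by
      rw [Int.fract_eq_iff]
      have h3 : -1 ≤ ((r : ℝ) - k + f) / A := by rw [le_div_iff₀ hAr]; linarith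
      have h4 : ((r : ℝ) - k + f) / A < 0 := div_neg_of_neg_of_pos (by linarith) hAr
      refine ⟨by linarith, by linarith, -1, by push_cast; ring⟩
    rw [e]
    constructor
    · intro h5; omega
    · intro h5
      exfalso
      have h6 : ((r : ℝ) - k + f) / A + 1 = ((r : ℝ) - k + f + A) / A := by field_simp
      rw [h6, div_lt_div_iff_of_pos_right hAr] at h5
      linarith
  · have e : Int.fract (((r : ℝ) - k + f) / A) = f / A := by
      rw [h]
      have : (k : ℝ) - k + f = f := by ring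
      rw [this, Int.fract_eq_self]
      refine ⟨by positivity, ?_⟩
      rw [div_lt_one hAr]
      linarith
    rw [e]
    constructor
    · intro _
      exact div_lt_div_of_pos_right hf1 hAr
    · intro _; exact h
  · have h2 : (k : ℝ) + 1 ≤ r := by exact_mod_cast h
    have e : Int.fract (((r : ℝ) - k + f) / A) = ((r : ℝ) - k + f) / A := by
      rw [Int.fract_eq_self]
      refine ⟨div_nonneg (by linarith) hAr.le, ?_⟩
      rw [div_lt_one hAr]
      linarith
    rw [e]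
    constructor
    · intro h5; omega
    · intro h5
      exfalso
      rw [div_lt_div_iff_of_pos_right hAr] at h5
      linarith

theorem shows_fract {x : Conf} {β : ℝ} (hβ : 0 ≤ β) (hx : Rep x β) (w : List (Fin 6)) (j : ℤ) (n : ℕ) :
    ShowsW (F^[n] x) w j ↔
      Int.fract ((6 : ℝ) ^ (j - 1) * ((3 / 2) ^ n * β) - (code w : ℝ) / 6 ^ w.length) < 1 / 6 ^ w.length := by
  rw [shows_iff hβ hx, fract_iff _ (by positivity) _ _ (code_lt w)]
  have hA0 : (0 : ℝ) < 6 ^ w.length := by positivity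
  have e : (6 : ℝ) ^ (j + w.length - 1) * ((3 / 2) ^ n * β) / ((6 ^ w.length : ℕ) : ℝ) =
      (6 : ℝ) ^ (j - 1) * ((3 / 2) ^ n * β) := by
    rw [show j + (w.length : ℤ) - 1 = (j - 1) + (w.length : ℤ) by ring,
      zpow_add₀ (by norm_num), zpow_natCast]
    push_cast
    field_simp
  rw [e]
  push_cast
  rfl

end Pool.Agent.J4H78.NW
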