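import Mathlib
import Pool.Agent.J4H78.NW.Left
import Pool.Agent.J4H78.NW.Right
import Pool.Agent.J4H78.NW.Words
import Pool.Agent.J4H78.NW.LogForm

/-!
# Normal frequencies near the edges of the light cone, for almost all positions
-/

set_option autoImplicit false

namespace Pool.Agent.J4H78.NW

open Finset
open Pool.Agent.H429R2.Auto
open Pool.Agent.J4H78.TS (ShowsW code code_lt)

open Classical in
/-- from initial segments to windows -/
theorem window (f : ℕ → Prop) (θ ε M : ℝ) (hθ : 0 ≤ θ) (hθ1 : θ ≤ 1) (hε : 0 < ε)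
    (h : ∀ T : ℕ, ε ^ 2 / 2 * M ≤ T → (T : ℝ) ≤ M →
      |(((range T).filter f).card : ℝ) - θ * T| < ε ^ 2 / 2 * T)
    (s T : ℕ) (hT : ε * M ≤ T) (hsT : (s : ℝ) + T ≤ M) :
    |(((range T).filter (fun t => f (s + t))).card : ℝ) - θ * T| ≤ ε * T := by
  have hM : 0 ≤ M := by
    have h1 : (0 : ℝ) ≤ s := Nat.cast_nonneg s
    have h2 : (0 : ℝ) ≤ T := Nat.cast_nonneg T
    linarith
  have key : ∀ a : ℕ, (a : ℝ) ≤ M → |(((range a).filter f).card : ℝ) - θ * a| ≤ ε ^ 2 / 2 * M := by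
    intro a ha
    have ha0 : (0 : ℝ) ≤ a := Nat.cast_nonneg a
    rcases le_or_gt (ε ^ 2 / 2 * M) (a : ℝ) with h1 | h1
    · refine (h a h1 ha).le.trans ?_
      exact mul_le_mul_of_nonneg_left ha (by positivity)
    · have h2 : (((range a).filter f).card : ℝ) ≤ a := by
        have := card_filter_le (range a) f
        rw [card_range] at this
        exact_mod_cast this
      have h3 : (0 : ℝ) ≤ ((range a).filter f).card := Nat.cast_nonneg _
      rw [abs_le]
      constructor <;> nlinarith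
  have hsum : ((range (s + T)).filter f).card = ((range s).filter f).card +
      ((range T).filter (fun t => f (s + t))).card := by
    have hun : range (s + T) = range s ∪ Ico s (s + T) := by
      ext n
      rw [mem_union, mem_range, mem_range, mem_Ico]
      omega
    rw [hun, filter_union, card_union_of_disjoint]
    · rw [← card_image_of_injective ((range T).filter (fun t => f (s + t))) (add_right_injective s)]
      congr 2
      ext n
      rw [mem_filter, mem_image, mem_Ico]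
      constructor
      · rintro ⟨⟨h1, h2⟩, h3⟩
        refine ⟨n - s, ?_, by omega⟩
        rw [mem_filter, mem_range]
        refine ⟨by omega, ?_⟩
        have e : s + (n - s) = n := by omega
        rw [e]
        exact h3
      · rintro ⟨t, ht, rfl⟩
        rw [mem_filter, mem_range] at ht
        exact ⟨⟨by omega, by omega⟩, ht.2⟩
    · apply disjoint_filter_filter
      rw [Finset.disjoint_left]
      intro n h1 h2
      rw [mem_range] at h1
      rw [mem_Ico] at h2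
      omega
  have h1 := key (s + T) (by push_cast; exact hsT)
  have h2 := key s (by have : (0 : ℝ) ≤ T := Nat.cast_nonneg T; linarith)
  rw [hsum] at h1
  push_cast at h1
  have e : ε ^ 2 / 2 * M + ε ^ 2 / 2 * M = ε * (ε * M) := by ring
  have h3 : ε * (ε * M) ≤ ε * T := mul_le_mul_of_nonneg_left hT hε.le
  rw [abs_le] at h1 h2 ⊢
  obtain ⟨h1a, h1b⟩ := h1
  obtain ⟨h2a, h2b⟩ := h2
  constructor
  · nlinarith
  · nlinarith

open Classical in
theorem count_bad (A : ℕ) (ε₁ C c : ℝ) (hε₁ : 0 < ε₁) (hC : 0 < C) (hc : 0 < c) : ∃ X₀ : ℕ, ∀ X : ℕ,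
    X₀ ≤ X → ∀ (S : Finset ℕ) (N : ℕ → ℕ → ℕ → ℕ) (θ : ℝ),
    (∀ T : ℕ, (T : ℝ) ≤ Real.log X → ∀ v < A,
      ((S.filter (fun i => ε₁ * T ≤ |(N v T i : ℝ) - θ * T|)).card : ℝ) ≤ C * (X * Real.exp (-(c * T)))) →
    ((S.filter (fun i => ¬ ∀ v < A, ∀ T : ℕ, ε₁ * Real.log X ≤ T → (T : ℝ) ≤ Real.log X →
      |(N v T i : ℝ) - θ * T| < ε₁ * T)).card : ℝ) ≤ (X : ℝ) ^ (1 - c * ε₁ / 2) := by
  have hlim : Filter.Tendsto (fun X : ℕ => A * C * (Real.log X + 1) * (X : ℝ) ^ (-(c * ε₁ / 2)))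
      Filter.atTop (nhds 0) := by
    have h0 : Filter.Tendsto (fun X : ℕ => (X : ℝ)) Filter.atTop Filter.atTop := tendsto_natCast_atTop_atTop
    have hpos : 0 < c * ε₁ / 2 := by positivity
    have h1 : Filter.Tendsto (fun y : ℝ => Real.log y * y ^ (-(c * ε₁ / 2))) Filter.atTop (nhds 0) := by
      have h2 := (isLittleO_log_rpow_atTop hpos).tendsto_div_nhds_zero
      refine h2.congr' ?_
      filter_upwards [Filter.eventually_gt_atTop (0 : ℝ)] with y hy
      rw [Real.rpow_neg hy.le, div_eq_mul_inv]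
    have h2 : Filter.Tendsto (fun y : ℝ => y ^ (-(c * ε₁ / 2))) Filter.atTop (nhds 0) :=
      tendsto_rpow_neg_atTop hpos
    have h3 := ((h1.add h2).const_mul ((A : ℝ) * C)).comp h0
    rw [add_zero, mul_zero] at h3
    refine h3.congr ?_
    intro X
    simp only [Function.comp]
    ring
  obtain ⟨X₁, hX₁⟩ := Filter.eventually_atTop.1 (hlim.eventually (gt_mem_nhds (zero_lt_one' ℝ)))
  refine ⟨max X₁ 1, ?_⟩
  intro X hX S N θ hN
  have hXX₁ := hX₁ X ((le_max_left _ _).trans hX)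
  have hX1 : 1 ≤ X := (le_max_right _ _).trans hX
  have hXr : (1 : ℝ) ≤ X := by exact_mod_cast hX1
  have hX0 : (0 : ℝ) < X := by linarith
  have hlog : 0 ≤ Real.log X := Real.log_nonneg hXr
  obtain ⟨M, hM⟩ : ∃ M, M = ⌊Real.log X⌋₊ := ⟨_, rfl⟩
  have hMl : (M : ℝ) ≤ Real.log X := by rw [hM]; exact Nat.floor_le hlog
  obtain ⟨TT, hTT⟩ : ∃ TT, TT = (range (M + 1)).filter (fun T : ℕ => ε₁ * Real.log X ≤ T) := ⟨_, rfl⟩
  have hsub : S.filter (fun i => ¬ ∀ v < A, ∀ T : ℕ, ε₁ * Real.log X ≤ T → (T : ℝ) ≤ Real.log X →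
      |(N v T i : ℝ) - θ * T| < ε₁ * T) ⊆
      (range A).biUnion (fun v => TT.biUnion (fun T =>
        S.filter (fun i => ε₁ * T ≤ |(N v T i : ℝ) - θ * T|))) := by
    intro i hi
    rw [mem_filter] at hi
    obtain ⟨hiS, hi⟩ := hi
    push Not at hi
    obtain ⟨v, hv, T, hT1, hT2, hT3⟩ := hi
    rw [mem_biUnion]
    refine ⟨v, mem_range.2 hv, ?_⟩
    rw [mem_biUnion]
    refine ⟨T, ?_, ?_⟩
    · rw [hTT, mem_filter, mem_range]
      refine ⟨?_, hT1⟩
      rw [hM]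
      exact Nat.lt_succ_of_le (Nat.le_floor hT2)
    · rw [mem_filter]
      exact ⟨hiS, hT3⟩
  have hTTc : (TT.card : ℝ) ≤ Real.log X + 1 := by
    have h1 : TT.card ≤ M + 1 := by
      rw [hTT]
      refine (card_filter_le _ _).trans ?_
      rw [card_range]
    have h2 : (TT.card : ℝ) ≤ M + 1 := by exact_mod_cast h1
    linarith
  have hB : ∀ v ∈ range A, ∀ T ∈ TT, ((S.filter (fun i => ε₁ * T ≤ |(N v T i : ℝ) - θ * T|)).card : ℝ) ≤
      C * (X : ℝ) ^ (1 - c * ε₁) := by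
    intro v hv T hT
    rw [hTT, mem_filter, mem_range] at hT
    have hTM : (T : ℝ) ≤ M := by exact_mod_cast (by omega : T ≤ M)
    refine (hN T (hTM.trans hMl) v (mem_range.1 hv)).trans ?_
    apply mul_le_mul_of_nonneg_left _ hC.le
    have e : (X : ℝ) ^ (1 - c * ε₁) = X * Real.exp (-(c * (ε₁ * Real.log X))) := by
      rw [Real.rpow_def_of_pos hX0]
      nth_rewrite 2 [← Real.exp_log hX0]
      rw [← Real.exp_add]
      congr 1
      ring
    rw [e]
    apply mul_le_mul_of_nonneg_left _ hX0.le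
    apply Real.exp_le_exp.2
    have : c * (ε₁ * Real.log X) ≤ c * T := mul_le_mul_of_nonneg_left hT.2 hc.le
    linarith
  have h1 : ((S.filter (fun i => ¬ ∀ v < A, ∀ T : ℕ, ε₁ * Real.log X ≤ T → (T : ℝ) ≤ Real.log X →
      |(N v T i : ℝ) - θ * T| < ε₁ * T)).card : ℝ) ≤
      ∑ v ∈ range A, ∑ T ∈ TT, ((S.filter (fun i => ε₁ * T ≤ |(N v T i : ℝ) - θ * T|)).card : ℝ) := by
    have h2 := (card_le_card hsub).trans (card_biUnion_le.trans (sum_le_sum (fun v _ => card_biUnion_le)))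
    exact_mod_cast h2
  refine h1.trans ?_
  have h2 : ∑ v ∈ range A, ∑ T ∈ TT, ((S.filter (fun i => ε₁ * T ≤ |(N v T i : ℝ) - θ * T|)).card : ℝ) ≤
      ∑ _v ∈ range A, ∑ _T ∈ TT, C * (X : ℝ) ^ (1 - c * ε₁) :=
    sum_le_sum (fun v hv => sum_le_sum (fun T hT => hB v hv T hT))
  refine h2.trans ?_
  rw [sum_const, sum_const, card_range, nsmul_eq_mul, nsmul_eq_mul]
  have hXp : (0 : ℝ) < (X : ℝ) ^ (1 - c * ε₁ / 2) := Real.rpow_pos_of_pos hX0 _
  have e : (X : ℝ) ^ (1 - c * ε₁) = (X : ℝ) ^ (1 - c * ε₁ / 2) * (X : ℝ) ^ (-(c * ε₁ / 2)) := by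
    rw [← Real.rpow_add hX0]
    congr 1
    ring
  rw [e]
  have hXn : (0 : ℝ) < (X : ℝ) ^ (-(c * ε₁ / 2)) := Real.rpow_pos_of_pos hX0 _
  calc (A : ℝ) * (TT.card * (C * ((X : ℝ) ^ (1 - c * ε₁ / 2) * (X : ℝ) ^ (-(c * ε₁ / 2)))))
      = (TT.card : ℝ) * (A * C * (X : ℝ) ^ (-(c * ε₁ / 2)) * (X : ℝ) ^ (1 - c * ε₁ / 2)) := by ring
    _ ≤ (Real.log X + 1) * (A * C * (X : ℝ) ^ (-(c * ε₁ / 2)) * (X : ℝ) ^ (1 - c * ε₁ / 2)) :=
        mul_le_mul_of_nonneg_right hTTc (by positivity)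
    _ = (A * C * (Real.log X + 1) * (X : ℝ) ^ (-(c * ε₁ / 2))) * (X : ℝ) ^ (1 - c * ε₁ / 2) := by ring
    _ ≤ 1 * (X : ℝ) ^ (1 - c * ε₁ / 2) := mul_le_mul_of_nonneg_right hXX₁.le hXp.le
    _ = _ := one_mul _

open Classical in
/-- During the times after `n₀` all words of length `L` are shown at the position `j` with the frequency
`6 ^ (-L)` up to `ε`, in all windows of length at least `ε M` before the time `n₀ + M`. -/
def Normal (x : Conf) (L : ℕ) (ε M : ℝ) (j : ℤ) (n₀ : ℕ) : Prop :=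
  ∀ w : List (Fin 6), w.length = L → ∀ s T : ℕ, ε * M ≤ T → (s : ℝ) + T ≤ M →
    |(((range T).filter (fun t => ShowsW (F^[n₀ + (s + t)] x) w j)).card : ℝ) - T / 6 ^ L| ≤ ε * T

theorem normal_mono {x : Conf} {L : ℕ} {ε ε' M : ℝ} {j : ℤ} {n₀ : ℕ} (hM : 0 ≤ M) (h : ε' ≤ ε)
    (hn : Normal x L ε' M j n₀) : Normal x L ε M j n₀ := by
  intro w hw s T hT hsT
  refine (hn w hw s T ((mul_le_mul_of_nonneg_right h hM).trans hT) hsT).trans ?_
  exact mul_le_mul_of_nonneg_right h (Nat.cast_nonneg T)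

open Classical in
theorem normal_of {x : Conf} {β : ℝ} (hβ : 0 ≤ β) (hx : Rep x β) (L : ℕ) (ε M : ℝ) (hε : 0 < ε) (j : ℤ)
    (n₀ : ℕ) (h : ∀ v : ℕ, v < 6 ^ L → ∀ T : ℕ, ε ^ 2 / 2 * M ≤ T → (T : ℝ) ≤ M →
      |(((range T).filter (fun t => Int.fract ((6 : ℝ) ^ (j - 1) * ((3 / 2) ^ (n₀ + t) * β) -
        (v : ℝ) / 6 ^ L) < 1 / 6 ^ L)).card : ℝ) - 1 / 6 ^ L * T| < ε ^ 2 / 2 * T) :
    Normal x L ε M j n₀ := by
  intro w hw s T hT hsT
  have h1 := h (code w) (by have := code_lt w; rwa [hw] at this)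
  have h2 := window (fun t => ShowsW (F^[n₀ + t] x) w j) (1 / 6 ^ L) ε M (by positivity)
    (by
      rw [div_le_one (by positivity)]
      exact one_le_pow₀ (by norm_num)) hε (by
      intro T' hT1 hT2
      have h3 := h1 T' hT1 hT2
      have e : (range T').filter (fun t => ShowsW (F^[n₀ + t] x) w j) =
          (range T').filter (fun t => Int.fract ((6 : ℝ) ^ (j - 1) * ((3 / 2) ^ (n₀ + t) * β) -
        (code w : ℝ) / 6 ^ L) < 1 / 6 ^ L) := by
        apply filter_congr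
        intro t _
        rw [shows_fract hβ hx, hw]
      rw [e]
      exact h3) s T hT hsT
  have e : (T : ℝ) / 6 ^ L = 1 / 6 ^ L * T := by ring
  rw [e]
  exact h2

open Classical in
theorem final (x : Conf) (hfin : IsFin x) (hx0 : x ≠ 0) (L : ℕ) (ε : ℝ) (hε : 0 < ε) :
    ∃ (δ C : ℝ) (X₀ : ℕ), 0 < δ ∧ ∀ X : ℕ, X₀ ≤ X →
      (((range (X + 1)).filter (fun j : ℕ => ¬ Normal x L ε (Real.log X) j j)).card : ℝ) ≤
        (X : ℝ) ^ (1 - δ) ∧
      ∃ t₀ : ℕ, (t₀ : ℝ) ≤ C * (Real.log X) ^ 2 ∧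
      (((Icc 1 X).filter (fun j : ℕ => ¬ Normal x L ε (Real.log X) (-(j : ℤ)) (⌈kap * j⌉₊ + t₀))).card : ℝ) ≤
        (X : ℝ) ^ (1 - δ) := by
  obtain ⟨m, k, hrep, hm0, -⟩ := exists_rep hfin
  have hm : 0 < m := hm0 hx0
  obtain ⟨β, hβe⟩ : ∃ β : ℝ, β = (m : ℝ) / 6 ^ k := ⟨_, rfl⟩
  rw [← hβe] at hrep
  have hβ : 0 < β := by rw [hβe]; positivity
  obtain ⟨η, hη⟩ : ∃ η, η = min ε 1 := ⟨_, rfl⟩
  have hη0 : 0 < η := by rw [hη]; exact lt_min hε one_pos
  have hη1 : η ≤ 1 := by rw [hη]; exact min_le_right _ _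
  have hηε : η ≤ ε := by rw [hη]; exact min_le_left _ _
  have hη2 : 0 < η ^ 2 / 2 := by positivity
  have hη21 : η ^ 2 / 2 ≤ 1 := by nlinarith
  obtain ⟨CR, cR, hcR, hCR, hR⟩ := rightA m (k + 1) hm (η ^ 2 / 2) hη2 hη21
  obtain ⟨CL, cL, XL, hcL, hCL, hL⟩ := leftA (3 / 2) (by norm_num) log32_le kap (by have := kap_ge; linarith)
    kap_irr (β / 6) (by positivity) (η ^ 2 / 2) hη2 hη21
  obtain ⟨XR', hXR'⟩ := count_bad (6 ^ L) (η ^ 2 / 2) CR cR hη2 hCR hcR
  obtain ⟨XL', hXL'⟩ := count_bad (6 ^ L) (η ^ 2 / 2) CL cL hη2 hCL hcL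
  obtain ⟨CF, hCF, hform⟩ := logform
  obtain ⟨δ, hδ⟩ : ∃ δ, δ = min (min (cR * (η ^ 2 / 2) / 2) (cL * (η ^ 2 / 2) / 2)) (1 / 2) / 2 := ⟨_, rfl⟩
  have hδ0 : 0 < δ := by
    rw [hδ]
    have : 0 < min (min (cR * (η ^ 2 / 2) / 2) (cL * (η ^ 2 / 2) / 2)) (1 / 2) :=
      lt_min (lt_min (by positivity) (by positivity)) (by norm_num)
    linarith
  have hδR : 2 * δ ≤ cR * (η ^ 2 / 2) / 2 := by
    rw [hδ]
    have := (min_le_left (min (cR * (η ^ 2 / 2) / 2) (cL * (η ^ 2 / 2) / 2)) (1 / 2)).trans (min_le_left _ _)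
    linarith
  have hδL : 2 * δ ≤ cL * (η ^ 2 / 2) / 2 := by
    rw [hδ]
    have := (min_le_left (min (cR * (η ^ 2 / 2) / 2) (cL * (η ^ 2 / 2) / 2)) (1 / 2)).trans (min_le_right _ _)
    linarith
  have hδ2 : 2 * δ ≤ 1 / 2 := by
    rw [hδ]
    have := (min_le_right (min (cR * (η ^ 2 / 2) / 2) (cL * (η ^ 2 / 2) / 2)) (1 / 2))
    linarith
  -- absorbing a constant
  obtain ⟨XK, hXK⟩ : ∃ XK : ℕ, ∀ X : ℕ, XK ≤ X → ((k : ℝ) + 1) + (X : ℝ) ^ (1 - 2 * δ) ≤ (X : ℝ) ^ (1 - δ) := by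
    have h0 : Filter.Tendsto (fun X : ℕ => (X : ℝ)) Filter.atTop Filter.atTop := tendsto_natCast_atTop_atTop
    have h1 : Filter.Tendsto (fun X : ℕ => ((k : ℝ) + 2) * (X : ℝ) ^ (-δ)) Filter.atTop (nhds 0) := by
      have := ((tendsto_rpow_neg_atTop hδ0).comp h0).const_mul ((k : ℝ) + 2)
      rwa [mul_zero] at this
    obtain ⟨XK, hXK⟩ := Filter.eventually_atTop.1 (h1.eventually (gt_mem_nhds (zero_lt_one' ℝ)))
    refine ⟨max XK 1, fun X hX => ?_⟩
    have h2 := hXK X ((le_max_left _ _).trans hX)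
    have hX1 : 1 ≤ X := (le_max_right _ _).trans hX
    have hXr : (1 : ℝ) ≤ X := by exact_mod_cast hX1
    have hX0 : (0 : ℝ) < X := by linarith
    have h3 : (1 : ℝ) ≤ (X : ℝ) ^ (1 - 2 * δ) := Real.one_le_rpow hXr (by linarith)
    have h4 : ((k : ℝ) + 1) + (X : ℝ) ^ (1 - 2 * δ) ≤ ((k : ℝ) + 2) * (X : ℝ) ^ (1 - 2 * δ) := by
      have : (0 : ℝ) ≤ k := Nat.cast_nonneg k
      nlinarith
    refine h4.trans ?_
    have e : (X : ℝ) ^ (1 - 2 * δ) = (X : ℝ) ^ (-δ) * (X : ℝ) ^ (1 - δ) := by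
      rw [← Real.rpow_add hX0]
      congr 1
      ring
    rw [e, ← mul_assoc]
    have hp : (0 : ℝ) < (X : ℝ) ^ (1 - δ) := Real.rpow_pos_of_pos hX0 _
    calc _ ≤ 1 * (X : ℝ) ^ (1 - δ) := mul_le_mul_of_nonneg_right h2.le hp.le
      _ = _ := one_mul _
  obtain ⟨Ct, hCt⟩ : ∃ Ct, Ct = (|Real.log CL| + CF) / Real.log (3 / 2) := ⟨_, rfl⟩
  refine ⟨δ, Ct, max (max XR' XL') (max (max XL XK) 3), hδ0, ?_⟩
  intro X hX
  have hX1 : XR' ≤ X := ((le_max_left _ _).trans (le_max_left _ _)).trans hX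
  have hX2 : XL' ≤ X := ((le_max_right _ _).trans (le_max_left _ _)).trans hX
  have hX3 : XL ≤ X := (((le_max_left _ _).trans (le_max_left _ _)).trans (le_max_right _ _)).trans hX
  have hX4 : XK ≤ X := (((le_max_right _ _).trans (le_max_left _ _)).trans (le_max_right _ _)).trans hX
  have hX5 : 3 ≤ X := ((le_max_right _ _).trans (le_max_right _ _)).trans hX
  have hXr : (3 : ℝ) ≤ X := by exact_mod_cast hX5
  have hX0 : (0 : ℝ) < X := by linarith
  have hXone : (1 : ℝ) ≤ X := by linarith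
  have hlog1 : 1 ≤ Real.log X := by
    rw [Real.le_log_iff_exp_le hX0]
    have := Real.exp_one_lt_d9
    linarith
  have hlog0 : 0 ≤ Real.log X := by linarith
  have hK := hXK X hX4
  constructor
  · -- right
    have h1 := hXR' X hX1 (range (X + 1))
      (fun v T i => cntR m (k + 1) ((v : ℝ) / 6 ^ L) (1 / 6 ^ L) T i) (1 / 6 ^ L) (by
        intro T hT v _
        exact hR X (by omega) T hT _ _ (by positivity) (by
          rw [div_le_one (by positivity)]
          exact one_le_pow₀ (by norm_num)))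
    beta_reduce at h1
    have hsub : (range (X + 1)).filter (fun j : ℕ => ¬ Normal x L ε (Real.log X) j j) ⊆
        range (k + 1) ∪ ((range (X + 1)).filter (fun i => ¬ ∀ v : ℕ, v < 6 ^ L → ∀ T : ℕ,
          η ^ 2 / 2 * Real.log X ≤ T → (T : ℝ) ≤ Real.log X →
          |(cntR m (k + 1) ((v : ℝ) / 6 ^ L) (1 / 6 ^ L) T i : ℝ) - 1 / 6 ^ L * T| <
            η ^ 2 / 2 * T)).image (fun i => k + 1 + i) := by
      intro j hj
      rw [mem_filter, mem_range] at hj
      rw [mem_union, mem_range, mem_image]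
      rcases lt_or_ge j (k + 1) with hjk | hjk
      · exact Or.inl hjk
      · right
        refine ⟨j - (k + 1), ?_, by omega⟩
        rw [mem_filter, mem_range]
        refine ⟨by omega, fun hall => hj.2 ?_⟩
        apply normal_mono hlog0 hηε
        apply normal_of hβ.le hrep L η _ hη0
        intro v hv T hT1 hT2
        have h2 := hall v hv T hT1 hT2
        have e : ∀ t : ℕ, (6 : ℝ) ^ ((j : ℤ) - 1) * ((3 / 2) ^ (j + t) * β) =
            (m : ℝ) * 3 ^ (2 * (j - (k + 1)) + ((k + 1) + t)) / 2 ^ ((k + 1) + t) := by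
          intro t
          obtain ⟨i, rfl⟩ : ∃ i, j = k + 1 + i := ⟨j - (k + 1), by omega⟩
          have e1 : k + 1 + i - (k + 1) = i := by omega
          have e2 : (((k + 1 + i : ℕ) : ℤ) - 1) = ((k + i : ℕ) : ℤ) := by push_cast; ring
          rw [e1, e2, zpow_natCast, hβe]
          have e3 : (3 : ℝ) ^ (2 * i + (k + 1 + t)) = 3 ^ i * 3 ^ (k + 1 + i + t) := by
            rw [← pow_add]; congr 1; ring
          have e4 : (2 : ℝ) ^ (k + 1 + i + t) = 2 ^ i * 2 ^ (k + 1 + t) := by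
            rw [← pow_add]; congr 1; ring
          have e5 : (6 : ℝ) ^ (k + i) = 6 ^ k * (3 ^ i * 2 ^ i) := by
            rw [pow_add, ← mul_pow]; norm_num
          rw [e3, div_pow, e4, e5]
          field_simp
        unfold cntR at h2
        simp only [e]
        exact h2
    have h3 : (((range (X + 1)).filter (fun j : ℕ => ¬ Normal x L ε (Real.log X) j j)).card : ℝ) ≤
        ((k : ℝ) + 1) + (X : ℝ) ^ (1 - cR * (η ^ 2 / 2) / 2) := by
      have h4 := (card_le_card hsub).trans ((card_union_le _ _).trans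
        (Nat.add_le_add le_rfl card_image_le))
      rw [card_range] at h4
      have h5 : (((range (X + 1)).filter (fun j : ℕ => ¬ Normal x L ε (Real.log X) j j)).card : ℝ) ≤
          ((k : ℝ) + 1) + (((range (X + 1)).filter (fun i => ¬ ∀ v : ℕ, v < 6 ^ L → ∀ T : ℕ,
          η ^ 2 / 2 * Real.log X ≤ T → (T : ℝ) ≤ Real.log X →
          |(cntR m (k + 1) ((v : ℝ) / 6 ^ L) (1 / 6 ^ L) T i : ℝ) - 1 / 6 ^ L * T| <
            η ^ 2 / 2 * T)).card : ℝ) := by exact_mod_cast h4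
      linarith
    refine h3.trans (le_trans ?_ hK)
    apply add_le_add le_rfl
    exact Real.rpow_le_rpow_of_exponent_le hXone (by linarith)
  · -- left
    obtain ⟨t₀, ⟨q, g, hq1, hqX, hqt, hqg⟩, hcount⟩ := hL X hX3
    refine ⟨t₀, ?_, ?_⟩
    · have h1 := hform X hX5 q g hq1 hqX hqg
      have h2 : (3 / 2 : ℝ) ^ t₀ ≤ CL * Real.exp (CF * (Real.log X) ^ 2) := by
        refine hqt.trans ?_
        rw [div_le_iff₀ (lt_trans (Real.exp_pos _) h1)]
        have h3 : Real.exp (CF * (Real.log X) ^ 2) * Real.exp (-(CF * (Real.log X) ^ 2)) = 1 := by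
          rw [← Real.exp_add, add_neg_cancel, Real.exp_zero]
        have h4 : Real.exp (CF * (Real.log X) ^ 2) * Real.exp (-(CF * (Real.log X) ^ 2)) ≤
            Real.exp (CF * (Real.log X) ^ 2) * |q * kap - g| :=
          mul_le_mul_of_nonneg_left h1.le (Real.exp_pos _).le
        nlinarith
      have h3 : (t₀ : ℝ) * Real.log (3 / 2) ≤ Real.log CL + CF * (Real.log X) ^ 2 := by
        have h4 := Real.log_le_log (by positivity) h2
        rwa [Real.log_pow, Real.log_mul hCL.ne' (Real.exp_pos _).ne', Real.log_exp] at h4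
      rw [hCt, div_mul_eq_mul_div, le_div_iff₀ log32_pos]
      refine h3.trans ?_
      have h4 : Real.log CL ≤ |Real.log CL| := le_abs_self _
      have h5 : |Real.log CL| ≤ |Real.log CL| * (Real.log X) ^ 2 := by
        have h6 : 1 ≤ (Real.log X) ^ 2 := by nlinarith
        exact le_mul_of_one_le_right (abs_nonneg _) h6
      nlinarith
    · have h1 := hXL' X hX2 (Icc 1 X)
        (fun v T i => cnt (3 / 2) ((v : ℝ) / 6 ^ L) (1 / 6 ^ L) t₀ T (zz (3 / 2) kap (β / 6) i)) (1 / 6 ^ L) (by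
          intro T hT v _
          exact hcount T hT _ _ (by positivity) (by
            rw [div_le_one (by positivity)]
            exact one_le_pow₀ (by norm_num)))
      beta_reduce at h1
      refine le_trans ?_ (h1.trans ((Real.rpow_le_rpow_of_exponent_le hXone (by linarith)).trans
        (le_trans (le_add_of_nonneg_left (by positivity)) hK)))
      rw [Nat.cast_le]
      apply card_le_card
      intro j hj
      rw [mem_filter] at hj ⊢
      refine ⟨hj.1, fun hall => hj.2 ?_⟩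
      apply normal_mono hlog0 hηε
      apply normal_of hβ.le hrep L η _ hη0
      intro v hv T hT1 hT2
      have h2 := hall v hv T hT1 hT2
      have hk0 : 0 ≤ kap * (j : ℝ) := by
        have := kap_ge
        positivity
      have e : ∀ t : ℕ, (6 : ℝ) ^ (-(j : ℤ) - 1) * ((3 / 2) ^ (⌈kap * j⌉₊ + t₀ + t) * β) =
          (3 / 2) ^ (t₀ + t) * zz (3 / 2) kap (β / 6) j := by
        intro t
        unfold zz
        have h32 : (0 : ℝ) < 3 / 2 := by norm_num
        have e1 : (6 : ℝ) ^ (j : ℕ) = (3 / 2 : ℝ) ^ (kap * (j : ℝ)) := by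
          rw [Real.rpow_def_of_pos h32, ← mul_assoc, mul_comm (Real.log (3 / 2)) kap, kap_mul,
            ← Real.rpow_def_of_pos (by norm_num), Real.rpow_natCast]
        have e2 : (((⌈kap * (j : ℝ)⌉ : ℤ) : ℝ)) = ((⌈kap * (j : ℝ)⌉₊ : ℕ) : ℝ) := by
          rw [natCast_ceil_eq_intCast_ceil hk0]
        rw [e2, Real.rpow_sub h32, Real.rpow_natCast, ← e1]
        have e3 : (6 : ℝ) ^ (-(j : ℤ) - 1) = (6 ^ j)⁻¹ * 6⁻¹ := by
          rw [zpow_sub₀ (by norm_num), zpow_neg, zpow_natCast, zpow_one]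
          rfl
        rw [e3, add_assoc, pow_add]
        field_simp
      unfold cnt at h2
      simp only [e]
      exact h2

end Pool.Agent.J4H78.NW
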